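import Mathlib

set_option autoImplicit false

open Real

namespace Pool.Agent.Robin

/-- The (unnormalised) ground state of the equilateral triangle in the frame of one side. -/
noncomputable def U (p q x y : ℝ) : ℝ :=
  p * exp (-x) + q * exp x + 2 * (p * exp (x / 2) + q * exp (-(x / 2))) * cosh (√3 / 2 * y)

noncomputable def Ux (p q x y : ℝ) : ℝ :=
  -(p * exp (-x)) + q * exp x + (p * exp (x / 2) - q * exp (-(x / 2))) * cosh (√3 / 2 * y)

noncomputable def Uy (p q x y : ℝ) : ℝ :=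
  √3 * (p * exp (x / 2) + q * exp (-(x / 2))) * sinh (√3 / 2 * y)

noncomputable def EE (p q x : ℝ) : ℝ :=
  p * (exp (2 * x) - exp (-x) * (1 + 3 * x)) - q * (exp (-(2 * x)) - exp x * (1 - 3 * x))

lemma mul_exp_sub_one_nonneg (z : ℝ) : 0 ≤ z * (exp z - 1) := by
  rcases le_total 0 z with h | h
  · exact mul_nonneg h (by linarith [one_le_exp h])
  · exact mul_nonneg_of_nonpos_of_nonpos h (by linarith [exp_le_one_iff.2 h])

lemma xX_nonneg {x z : ℝ} (hx : 0 ≤ x) (hz : -(3 * x) ≤ z) :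
    0 ≤ z * (exp z - 1) * (exp (2 * x) - exp (-x - z)) +
      3 * x * exp (-x) * (exp (-z) - 1 + z) := by
  have h1 := mul_exp_sub_one_nonneg z
  have h2 : exp (-x - z) ≤ exp (2 * x) := exp_le_exp.2 (by linarith)
  have h3 : 0 ≤ exp (-z) - 1 + z := by linarith [add_one_le_exp (-z)]
  have h4 : 0 ≤ 3 * x * exp (-x) := by positivity
  exact add_nonneg (mul_nonneg h1 (by linarith)) (mul_nonneg h4 h3)

lemma aux_g {z : ℝ} (hz : 0 ≤ z) : 0 ≤ (z - 2) * exp z + z + 2 := by
  have hm : MonotoneOn (fun z : ℝ => (z - 2) * exp z + z + 2) (Set.Ici 0) := by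
    apply monotoneOn_of_deriv_nonneg (convex_Ici 0)
    · fun_prop
    · fun_prop
    · intro w _
      have hd : HasDerivAt (fun z : ℝ => (z - 2) * exp z + z + 2)
          ((1 * exp w + (w - 2) * exp w) + 1) w :=
        ((((hasDerivAt_id' w).sub_const 2).fun_mul (Real.hasDerivAt_exp w)).fun_add
          (hasDerivAt_id' w)).add_const 2
      rw [hd.deriv]
      have h1 : 1 - w ≤ exp (-w) := by linarith [add_one_le_exp (-w)]
      have h2 : exp (-w) * exp w = 1 := by rw [← exp_add]; simp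
      nlinarith [exp_pos w]
  have := hm (Set.mem_Ici.2 le_rfl) (Set.mem_Ici.2 hz) hz
  simp only [zero_sub, exp_zero] at this
  linarith

lemma aux_L0 {z : ℝ} (hz : 0 ≤ z) : 0 ≤ 2 * z * (exp z - 1) - 3 * (exp z - 1 - z) := by
  have h1 := aux_g hz
  have h3 : 1 - z ≤ exp (-z) := by linarith [add_one_le_exp (-z)]
  have h2 : exp (-z) * exp z = 1 := by rw [← exp_add]; simp
  nlinarith [exp_pos z]

lemma sinh_le_mul_cosh {w : ℝ} (hw : 0 ≤ w) : sinh w ≤ w * cosh w := by
  have hm : MonotoneOn (fun w : ℝ => w * cosh w - sinh w) (Set.Ici 0) := by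
    apply monotoneOn_of_deriv_nonneg (convex_Ici 0)
    · fun_prop
    · fun_prop
    · intro w hw
      have hd : HasDerivAt (fun z : ℝ => z * cosh z - sinh z)
          ((1 * cosh w + w * sinh w) - cosh w) w :=
        ((hasDerivAt_id' w).fun_mul (Real.hasDerivAt_cosh w)).fun_sub (Real.hasDerivAt_sinh w)
      rw [hd.deriv]
      simp only [interior_Ici, Set.mem_Ioi] at hw
      have := mul_nonneg hw.le (Real.sinh_nonneg_iff.2 hw.le)
      linarith
  have := hm (Set.mem_Ici.2 le_rfl) (Set.mem_Ici.2 hw) hw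
  simp only [zero_mul, sinh_zero, sub_zero] at this
  linarith

lemma aux_L1 {z : ℝ} (hz : 0 ≤ z) : 0 ≤ 2 * z * cosh z - 3 * sinh z + z := by
  have hm : MonotoneOn (fun z : ℝ => 2 * z * cosh z - 3 * sinh z + z) (Set.Ici 0) := by
    apply monotoneOn_of_deriv_nonneg (convex_Ici 0)
    · fun_prop
    · fun_prop
    · intro w hw
      have hd : HasDerivAt (fun z : ℝ => 2 * z * cosh z - 3 * sinh z + z)
          ((2 * 1 * cosh w + 2 * w * sinh w) - 3 * cosh w + 1) w :=
        (((((hasDerivAt_id' w).const_mul 2).fun_mul (Real.hasDerivAt_cosh w))).fun_sub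
          ((Real.hasDerivAt_sinh w).const_mul 3)).fun_add (hasDerivAt_id' w)
      rw [hd.deriv]
      simp only [interior_Ici, Set.mem_Ioi] at hw
      have h1 := sinh_le_mul_cosh (w := w / 2) (by linarith)
      have h2 : cosh w = 1 + 2 * sinh (w / 2) ^ 2 := by
        have e : w = 2 * (w / 2) := by ring
        conv_lhs => rw [e]
        rw [cosh_two_mul, cosh_sq]; ring
      have h3 : sinh w = 2 * sinh (w / 2) * cosh (w / 2) := by
        have e : w = 2 * (w / 2) := by ring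
        conv_lhs => rw [e]
        rw [sinh_two_mul]
      have h4 : 0 ≤ sinh (w / 2) := Real.sinh_nonneg_iff.2 (by linarith)
      have h5 : 0 < cosh (w / 2) := cosh_pos _
      rw [h2, h3]
      nlinarith [mul_nonneg h4 (sub_nonneg.2 h1), mul_nonneg (mul_nonneg hw.le h4) h5.le]
  have := hm (Set.mem_Ici.2 le_rfl) (Set.mem_Ici.2 hz) hz
  simp only [mul_zero, zero_mul, sinh_zero, sub_zero, add_zero] at this
  linarith

lemma aux_prod {x : ℝ} (hx : 0 ≤ x) :
    3 * x ^ 2 ≤ (exp (2 * x) - 1) * (1 - exp (-(3 / 2 * x))) := by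
  have h1 : exp (2 * x) - 1 = 2 * exp x * sinh x := by
    rw [sinh_eq, two_mul, exp_add]
    have : exp x * exp (-x) = 1 := by rw [← exp_add]; simp
    linear_combination this
  have h2 : 1 - exp (-(3 / 2 * x)) = 2 * exp (-(3 / 4 * x)) * sinh (3 / 4 * x) := by
    rw [sinh_eq]
    have e1 : exp (-(3 / 4 * x)) * exp (3 / 4 * x) = 1 := by rw [← exp_add]; simp
    have e2 : exp (-(3 / 4 * x)) * exp (-(3 / 4 * x)) = exp (-(3 / 2 * x)) := by
      rw [← exp_add]; congr 1; ring
    linear_combination (-1 : ℝ) * e1 + e2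
  have h3 : x ≤ sinh x := Real.self_le_sinh_iff.2 hx
  have h4 : 3 / 4 * x ≤ sinh (3 / 4 * x) := Real.self_le_sinh_iff.2 (by positivity)
  rw [h1, h2]
  have h5 : exp x * exp (-(3 / 4 * x)) = exp (x / 4) := by rw [← exp_add]; congr 1; ring
  have h6 : 1 ≤ exp (x / 4) := one_le_exp (by positivity)
  calc 3 * x ^ 2 = 4 * 1 * (x * (3 / 4 * x)) := by ring
    _ ≤ 4 * exp (x / 4) * (sinh x * sinh (3 / 4 * x)) := by
        gcongr
    _ = 2 * exp x * sinh x * (2 * exp (-(3 / 4 * x)) * sinh (3 / 4 * x)) := by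
        rw [← h5]; ring

lemma Z_nonneg {x z : ℝ} (hx : 0 ≤ x) (hz : -(3 / 2 * x) ≤ z) :
    0 ≤ z * (exp z - 1) * (exp (2 * x) - 1) * (1 - exp (-z - 3 * x)) +
      3 * x * (exp (-x) * (exp (-z) - 1 + z) - (exp z - 1 - z)) := by
  have hzz := mul_exp_sub_one_nonneg z
  rcases le_total 0 z with h | h
  · -- z ≥ 0
    set s := exp (-x) with hs
    have hs0 : 0 < s := exp_pos _
    have hs1 : s ≤ 1 := exp_le_one_iff.2 (by linarith)
    have h1 : 2 * x ≤ exp (2 * x) - 1 := by linarith [add_one_le_exp (2 * x)]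
    have h2 : 1 - s * exp (-z) ≤ 1 - exp (-z - 3 * x) := by
      have : exp (-z - 3 * x) ≤ s * exp (-z) := by
        rw [hs, ← exp_add]; exact exp_le_exp.2 (by linarith)
      linarith
    have h3 : 0 ≤ 1 - s * exp (-z) := by
      have : s * exp (-z) ≤ 1 * 1 :=
        mul_le_mul hs1 (exp_le_one_iff.2 (by linarith)) (exp_pos _).le zero_le_one
      linarith
    have h4 : z * (exp z - 1) * (2 * x) * (1 - s * exp (-z)) ≤
        z * (exp z - 1) * (exp (2 * x) - 1) * (1 - exp (-z - 3 * x)) := by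
      apply mul_le_mul (mul_le_mul_of_nonneg_left h1 hzz) h2 h3
      exact mul_nonneg hzz (by linarith)
    have hL0 := aux_L0 h
    have hL1 := aux_L1 h
    have e1 : exp z * exp (-z) = 1 := by rw [← exp_add]; simp
    have key : 0 ≤ 2 * (z * (exp z - 1)) * (1 - s * exp (-z)) +
        3 * (s * (exp (-z) - 1 + z) - (exp z - 1 - z)) := by
      have e2 : 2 * (z * (exp z - 1)) * (1 - s * exp (-z)) +
        3 * (s * (exp (-z) - 1 + z) - (exp z - 1 - z)) =
        (1 - s) * (2 * z * (exp z - 1) - 3 * (exp z - 1 - z)) +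
          s * (2 * (2 * z * cosh z - 3 * sinh z + z)) := by
        rw [cosh_eq, sinh_eq]
        linear_combination (-2 * z * s) * e1
      rw [e2]
      exact add_nonneg (mul_nonneg (by linarith) hL0) (mul_nonneg hs0.le (by linarith))
    have := mul_nonneg hx key
    nlinarith
  · -- z ≤ 0
    obtain ⟨w, rfl⟩ : ∃ w, z = -w := ⟨-z, by ring⟩
    have hw : 0 ≤ w := by linarith
    have hw2 : w ≤ 3 / 2 * x := by linarith
    rw [neg_neg]
    have h1 : exp (-x) ≤ 1 := exp_le_one_iff.2 (by linarith)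
    have h1' : 1 - x ≤ exp (-x) := by linarith [add_one_le_exp (-x)]
    have h2 : exp (-w) - 1 + w ≤ exp w - 1 - w := by
      have := Real.self_le_sinh_iff.2 hw
      rw [sinh_eq] at this
      linarith
    have h3 : 0 ≤ exp (-w) - 1 + w := by linarith [add_one_le_exp (-w)]
    have h4 : exp (-w) - 1 + w ≤ w * (1 - exp (-w)) := by
      have e1 : exp (-w) * exp w = 1 := by rw [← exp_add]; simp
      nlinarith [add_one_le_exp w, exp_pos (-w)]
    have h5 : -(x * (w * (1 - exp (-w)))) ≤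
        exp (-x) * (exp w - 1 + -w) - (exp (-w) - 1 - -w) := by
      nlinarith [mul_le_mul_of_nonneg_left h2 (exp_pos (-x)).le,
        mul_le_mul_of_nonneg_right h1' h3, mul_le_mul_of_nonneg_left h4 hx]
    have h6 : exp (w - 3 * x) ≤ exp (-(3 / 2 * x)) := exp_le_exp.2 (by linarith)
    have h7 := aux_prod hx
    have h8 : 0 ≤ exp (2 * x) - 1 := by linarith [one_le_exp (show 0 ≤ 2 * x by linarith)]
    have h9 : 3 * x ^ 2 ≤ (exp (2 * x) - 1) * (1 - exp (w - 3 * x)) :=
      h7.trans (mul_le_mul_of_nonneg_left (by linarith) h8)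
    have h10 : 0 ≤ w * (1 - exp (-w)) :=
      mul_nonneg hw (by linarith [exp_le_one_iff.2 (show -w ≤ 0 by linarith)])
    have h11 := mul_le_mul_of_nonneg_left h9 h10
    have h12 := mul_le_mul_of_nonneg_left h5 (show 0 ≤ 3 * x by linarith)
    nlinarith

/-- The key linear inequality. -/
lemma key_lin {p q x t : ℝ} (hx : 0 ≤ x) (ht : 0 ≤ t) (hq : 0 ≤ q) (hp : q * exp x ≤ p) :
    √3 * (Uy p q x (x * t) - t * Ux p q x (x * t)) ≤ -((√3 * t - 3) / 2 * EE p q x) := by
  have h33 : √3 * √3 = 3 := mul_self_sqrt (by norm_num)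
  have h3pos : 0 < √3 := sqrt_pos.2 (by norm_num)
  rcases hx.eq_or_lt with rfl | hx0
  · simp [Uy, Ux, EE]
  set η := (√3 * t - 3) / 2 with hη
  set z := η * x with hz
  have hηlow : -(3 / 2) ≤ η := by
    have := mul_nonneg h3pos.le ht
    rw [hη]; linarith
  have hzlow : -(3 / 2 * x) ≤ z := by
    rw [hz]; nlinarith
  have hX := xX_nonneg hx (show -(3 * x) ≤ z by linarith)
  have hZ := Z_nonneg hx hzlow
  have hcomb : 0 ≤ (p - q * exp x) * (z * (exp z - 1) * (exp (2 * x) - exp (-x - z)) +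
      3 * x * exp (-x) * (exp (-z) - 1 + z)) + q * exp x *
      (z * (exp z - 1) * (exp (2 * x) - 1) * (1 - exp (-z - 3 * x)) +
      3 * x * (exp (-x) * (exp (-z) - 1 + z) - (exp z - 1 - z))) :=
    add_nonneg (mul_nonneg (by linarith) hX) (mul_nonneg (mul_nonneg hq (exp_pos _).le) hZ)
  -- algebraic identity
  have harg : √3 / 2 * (x * t) = 3 / 2 * x + z := by
    rw [hz, hη]; ring
  set a := exp (x / 2) with ha
  set b := exp z with hb
  have ha0 : a ≠ 0 := (exp_pos _).ne'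
  have hb0 : b ≠ 0 := (exp_pos _).ne'
  have E1 : exp x = a ^ 2 := by rw [ha, ← exp_nat_mul]; congr 1; push_cast; ring
  have E2 : exp (-x) = (a ^ 2)⁻¹ := by rw [exp_neg, E1]
  have E3 : exp (2 * x) = a ^ 4 := by rw [ha, ← exp_nat_mul]; congr 1; push_cast; ring
  have E4 : exp (-(2 * x)) = (a ^ 4)⁻¹ := by rw [exp_neg, E3]
  have E5 : exp (-(x / 2)) = a⁻¹ := by rw [exp_neg]
  have E6 : exp (-z) = b⁻¹ := by rw [exp_neg]
  have E7 : exp (-x - z) = (a ^ 2 * b)⁻¹ := by
    rw [show -x - z = -(x + z) by ring, exp_neg, exp_add, E1]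
  have E8 : exp (-z - 3 * x) = (a ^ 6 * b)⁻¹ := by
    rw [show -z - 3 * x = -(3 * x + z) by ring, exp_neg, exp_add]
    congr 2
    rw [ha, ← exp_nat_mul]; congr 1; push_cast; ring
  have E9 : exp (3 / 2 * x + z) = a ^ 3 * b := by
    rw [exp_add]; congr 1; rw [ha, ← exp_nat_mul]; congr 1; push_cast; ring
  have E10 : exp (-(3 / 2 * x + z)) = (a ^ 3 * b)⁻¹ := by rw [exp_neg, E9]
  have hst : √3 * t = 3 + 2 * η := by rw [hη]; ring
  have hid : x * (-(η * EE p q x) -
      √3 * (Uy p q x (x * t) - t * Ux p q x (x * t))) =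
      (p - q * exp x) * (z * (b - 1) * (exp (2 * x) - exp (-x - z)) +
      3 * x * exp (-x) * (exp (-z) - 1 + z)) + q * exp x *
      (z * (b - 1) * (exp (2 * x) - 1) * (1 - exp (-z - 3 * x)) +
      3 * x * (exp (-x) * (exp (-z) - 1 + z) - (b - 1 - z))) := by
    unfold Uy Ux EE
    rw [harg, cosh_eq, sinh_eq, E1, E2, E3, E4, E5, E6, E7, E8, E9, E10]
    have e : √3 * (√3 * (p * a + q * a⁻¹) * ((a ^ 3 * b - (a ^ 3 * b)⁻¹) / 2) -
        t * (-(p * (a ^ 2)⁻¹) + q * a ^ 2 +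
          (p * a - q * a⁻¹) * ((a ^ 3 * b + (a ^ 3 * b)⁻¹) / 2))) =
        3 * (p * a + q * a⁻¹) * ((a ^ 3 * b - (a ^ 3 * b)⁻¹) / 2) -
        (3 + 2 * η) * (-(p * (a ^ 2)⁻¹) + q * a ^ 2 +
          (p * a - q * a⁻¹) * ((a ^ 3 * b + (a ^ 3 * b)⁻¹) / 2)) := by
      linear_combination ((p * a + q * a⁻¹) * ((a ^ 3 * b - (a ^ 3 * b)⁻¹) / 2)) * h33 -
        (-(p * (a ^ 2)⁻¹) + q * a ^ 2 +
          (p * a - q * a⁻¹) * ((a ^ 3 * b + (a ^ 3 * b)⁻¹) / 2)) * hst
    rw [e, hz]
    field_simp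
    ring
  have hfin : 0 ≤ x * (-(η * EE p q x) -
      √3 * (Uy p q x (x * t) - t * Ux p q x (x * t))) := by
    rw [hid]; exact hcomb
  have := nonneg_of_mul_nonneg_right hfin hx0
  linarith

lemma EE_nonneg {p q x : ℝ} (hx : 0 ≤ x) (hq : 0 ≤ q) (hp : q * exp x ≤ p) :
    0 ≤ EE p q x := by
  have := key_lin hx le_rfl hq hp
  simp [Uy] at this
  linarith

lemma U_pos {p q x y : ℝ} (hp : 0 < p) (hq : 0 ≤ q) : 0 < U p q x y := by
  unfold U
  have h1 := cosh_pos (√3 / 2 * y)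
  positivity

lemma U_mono {p q x y y' : ℝ} (hp : 0 ≤ p) (hq : 0 ≤ q) (hy : 0 ≤ y) (hyy : y ≤ y') :
    U p q x y ≤ U p q x y' := by
  unfold U
  have hy' : 0 ≤ y' := hy.trans hyy
  have h1 : cosh (√3 / 2 * y) ≤ cosh (√3 / 2 * y') := by
    rw [cosh_le_cosh, abs_of_nonneg (by positivity), abs_of_nonneg (by positivity)]
    gcongr
  gcongr

/-- The key pointwise inequality. -/
lemma key_point {p q x t : ℝ} (hx : 0 ≤ x) (ht : 0 ≤ t) (hq : 0 ≤ q) (hp0 : 0 < p)
    (hp : q * exp x ≤ p) :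
    U p q x (x * t) * (Uy p q x (x * t) - t * Ux p q x (x * t)) ≤
      -((√3 * t - 3) / (2 * √3) * (EE p q x * U p q x (x * √3))) := by
  have h3 : (0:ℝ) < √3 := sqrt_pos.2 (by norm_num)
  have h33 : √3 * √3 = 3 := mul_self_sqrt (by norm_num)
  have hkey := key_lin hx ht hq hp
  have hE := EE_nonneg hx hq hp
  have hU := U_pos (x := x) (y := x * t) hp0 hq
  have h1 : Uy p q x (x * t) - t * Ux p q x (x * t) ≤
      -((√3 * t - 3) / (2 * √3) * EE p q x) := by
    have : √3 * (-((√3 * t - 3) / (2 * √3) * EE p q x)) = -((√3 * t - 3) / 2 * EE p q x) := by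
      field_simp
    rw [← this] at hkey
    exact le_of_mul_le_mul_left hkey h3
  refine (mul_le_mul_of_nonneg_left h1 hU.le).trans ?_
  rcases le_total (√3) t with h | h
  · have hm : U p q x (x * √3) ≤ U p q x (x * t) :=
      U_mono hp0.le hq (by positivity) (by gcongr)
    have h5 : 0 ≤ (√3 * t - 3) / (2 * √3) := by
      have : √3 * √3 ≤ √3 * t := by gcongr
      apply div_nonneg (by linarith) (by positivity)
    have := mul_le_mul_of_nonneg_left hm (mul_nonneg h5 hE)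
    linarith
  · have hm : U p q x (x * t) ≤ U p q x (x * √3) :=
      U_mono hp0.le hq (by positivity) (by gcongr)
    have h5 : 0 ≤ -((√3 * t - 3) / (2 * √3)) := by
      have : √3 * t ≤ √3 * √3 := by gcongr
      rw [neg_nonneg]
      apply div_nonpos_of_nonpos_of_nonneg (by linarith) (by positivity)
    have := mul_le_mul_of_nonneg_left hm (mul_nonneg h5 hE)
    linarith

/-- The parameters attached to an equilateral triangle of inradius `R / κ`. -/
structure Par (τ R p q : ℝ) : Prop where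
  tau_pos : 0 < τ
  tau_lt : τ < 1 / 2
  R_nonneg : 0 ≤ R
  hE : exp (3 * R) * ((1 - τ) * (1 - 2 * τ)) = (1 + τ) * (1 + 2 * τ)
  hp : p = (1 - τ) * exp R
  hq : q = (1 + τ) * exp (-R)

namespace Par

variable {τ R p q : ℝ} (P : Par τ R p q)
include P

lemma p_pos : 0 < p := by
  rw [P.hp]
  have := P.tau_lt
  exact mul_pos (by linarith) (exp_pos _)

lemma q_pos : 0 < q := by
  rw [P.hq]
  have := P.tau_pos
  exact mul_pos (by linarith) (exp_pos _)

lemma q_exp_le {x : ℝ} (hx : x ≤ R) : q * exp x ≤ p := by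
  have h1 : q * exp x ≤ q * exp R :=
    mul_le_mul_of_nonneg_left (exp_le_exp.2 hx) P.q_pos.le
  refine h1.trans ?_
  have h2 : q * exp R = 1 + τ := by
    rw [P.hq, mul_assoc, ← exp_add]; simp
  rw [h2, P.hp]
  have ht := P.tau_pos
  have ht2 := P.tau_lt
  by_contra hcon
  push Not at hcon
  have h3 : exp (3 * R) = exp R ^ 3 := by rw [← exp_nat_mul]; norm_num
  have h4 : ((1 - τ) * exp R) ^ 3 < (1 + τ) ^ 3 :=
    pow_lt_pow_left₀ hcon (by have := exp_pos R; have : 0 < 1 - τ := by linarith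
                              positivity) (by norm_num)
  have h5 := P.hE
  rw [h3] at h5
  have h6 : ((1 - τ) * exp R) ^ 3 * (1 - 2 * τ) = (1 - τ) ^ 2 * ((1 + τ) * (1 + 2 * τ)) := by
    rw [← h5]; ring
  have h7 : ((1 - τ) * exp R) ^ 3 * (1 - 2 * τ) < (1 + τ) ^ 3 * (1 - 2 * τ) :=
    mul_lt_mul_of_pos_right h4 (by linarith)
  rw [h6] at h7
  nlinarith [mul_pos (mul_pos ht ht) ht, mul_pos (mul_pos (mul_pos ht ht) ht) ht]

lemma bc_id (x y : ℝ) : Ux p q x y - τ * U p q x y =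
    -((1 - τ) * (1 + τ) * (exp (R - x) - exp (x - R))) -
      (1 + τ) * (1 + 2 * τ) * (exp (-R - x / 2) - exp (-2 * R + x / 2)) *
        cosh (√3 / 2 * y) := by
  unfold Ux U
  have e1 : exp (R - x) = exp R * exp (-x) := by rw [← exp_add]; congr 1
  have e2 : exp (x - R) = exp (-R) * exp x := by rw [← exp_add]; congr 1; ring
  have e3 : exp (-R - x / 2) = exp (-R) * exp (-(x / 2)) := by rw [← exp_add]; congr 1
  have e4 : exp (-2 * R + x / 2) = exp (-2 * R) * exp (x / 2) := by rw [← exp_add]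
  have e5 : exp R = exp (-2 * R) * exp (3 * R) := by rw [← exp_add]; congr 1; ring
  have e6 := P.hE
  have e7 : (1 - τ) * (1 - 2 * τ) * exp R = (1 + τ) * (1 + 2 * τ) * exp (-2 * R) := by
    rw [← e6, e5]; ring
  rw [P.hp, P.hq, e1, e2, e3, e4]
  linear_combination (exp (x / 2) * cosh (√3 / 2 * y)) * e7

lemma bc_le {x : ℝ} (hx : x ≤ R) (y : ℝ) : Ux p q x y ≤ τ * U p q x y := by
  have h := P.bc_id x y
  have ht := P.tau_pos
  have ht2 := P.tau_lt
  have h1 : exp (x - R) ≤ exp (R - x) := exp_le_exp.2 (by linarith)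
  have h2 : exp (-2 * R + x / 2) ≤ exp (-R - x / 2) := exp_le_exp.2 (by linarith)
  have h3 : 0 ≤ (1 - τ) * (1 + τ) * (exp (R - x) - exp (x - R)) :=
    mul_nonneg (mul_nonneg (by linarith) (by linarith)) (by linarith)
  have h4 : 0 ≤ (1 + τ) * (1 + 2 * τ) * (exp (-R - x / 2) - exp (-2 * R + x / 2)) *
        cosh (√3 / 2 * y) :=
    mul_nonneg (mul_nonneg (mul_nonneg (by linarith) (by linarith)) (by linarith))
      (cosh_pos _).le
  linarith

end Par

/-- One-variable profile. -/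
noncomputable def om (p q s : ℝ) : ℝ := p * exp (-s) + q * exp s

/-- Derivative of the profile. -/
noncomputable def om' (p q s : ℝ) : ℝ := -(p * exp (-s)) + q * exp s

lemma om_hasDerivAt (p q s : ℝ) : HasDerivAt (om p q) (om' p q s) s := by
  have h1 : HasDerivAt (fun s : ℝ => exp (-s)) (exp (-s) * (-1)) s :=
    (hasDerivAt_neg s).exp
  have h2 := ((h1.const_mul p).fun_add ((Real.hasDerivAt_exp s).const_mul q))
  have e : om' p q s = p * (exp (-s) * (-1)) + q * exp s := by unfold om'; ring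
  rw [e]
  exact h2

lemma om'_hasDerivAt (p q s : ℝ) : HasDerivAt (om' p q) (om p q s) s := by
  have h1 : HasDerivAt (fun s : ℝ => exp (-s)) (exp (-s) * (-1)) s :=
    (hasDerivAt_neg s).exp
  have h2 := (((h1.const_mul p).fun_neg).fun_add ((Real.hasDerivAt_exp s).const_mul q))
  have e : om p q s = -(p * (exp (-s) * (-1))) + q * exp s := by unfold om; ring
  rw [e]
  exact h2

lemma om_pos {p q : ℝ} (hp : 0 < p) (hq : 0 < q) (s : ℝ) : 0 < om p q s := by
  unfold om; positivity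

lemma Par.om_bc {τ R p q : ℝ} (P : Par τ R p q) {α β : ℝ} (h : R + α + β = 0) :
    2 * om' p q R - om' p q α - om' p q β =
      2 * τ * (om p q R + om p q α + om p q β) := by
  have e5 : exp R = exp (-2 * R) * exp (3 * R) := by rw [← exp_add]; congr 1; ring
  have e6 := P.hE
  have e7 : (1 - τ) * (1 - 2 * τ) * exp R = (1 + τ) * (1 + 2 * τ) * exp (-2 * R) := by
    rw [← e6, e5]; ring
  have e8 : exp (-R) * exp R = 1 := by rw [← exp_add]; simp
  have e9 : exp (-R) * exp (-α) = exp β := by rw [← exp_add]; congr 1; linarith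
  have e10 : exp (-R) * exp (-β) = exp α := by rw [← exp_add]; congr 1; linarith
  have e11 : exp (-2 * R) = exp (-R) * exp (-R) := by rw [← exp_add]; congr 1; ring
  unfold om om'
  rw [P.hp, P.hq, ← e9, ← e10]
  rw [e11] at e7
  linear_combination (exp (-α) + exp (-β)) * e7 + 0 * e8

/-- Existence of the spectral parameter. -/
lemma exists_kappa {a r : ℝ} (ha : 0 < a) (hr : 0 < r) :
    ∃ κ : ℝ, 2 * a < κ ∧
      exp (3 * (κ * r)) * ((κ - a) * (κ - 2 * a)) = (κ + a) * (κ + 2 * a) := by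
  set F : ℝ → ℝ := fun κ =>
    exp (3 * (κ * r)) * ((κ - a) * (κ - 2 * a)) - (κ + a) * (κ + 2 * a) with hF
  have hc : ContinuousOn F (Set.Icc (2 * a) (2 * a + 2 / r)) := by
    rw [hF]; fun_prop
  have hle : 2 * a ≤ 2 * a + 2 / r := by
    have : 0 < 2 / r := by positivity
    linarith
  have h0 : F (2 * a) < 0 := by
    rw [hF]
    simp only [sub_self, mul_zero, zero_sub]
    nlinarith [mul_pos ha ha]
  have h1 : 0 ≤ F (2 * a + 2 / r) := by
    rw [hF]
    simp only
    have e1 : 3 * ((2 * a + 2 / r) * r) = (3 * (a * r) + 3) + (3 * (a * r) + 3) := by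
      field_simp; ring
    rw [e1, exp_add]
    set m := a * r with hm
    have hm0 : 0 < m := by positivity
    have h2 : 3 * m + 4 ≤ exp (3 * m + 3) := by linarith [add_one_le_exp (3 * m + 3)]
    have h3 : (3 * m + 4) * (3 * m + 4) ≤ exp (3 * m + 3) * exp (3 * m + 3) := by
      gcongr
    have e2 : 2 * a + 2 / r - a = (m + 2) / r := by rw [hm]; field_simp; ring
    have e3 : 2 * a + 2 / r - 2 * a = 2 / r := by ring
    have e4 : 2 * a + 2 / r + a = (3 * m + 2) / r := by rw [hm]; field_simp; ring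
    have e5 : 2 * a + 2 / r + 2 * a = (4 * m + 2) / r := by rw [hm]; field_simp; ring
    rw [e2, e3, e4, e5]
    have h4 : (3 * m + 4) * (3 * m + 4) * ((m + 2) / r * (2 / r)) ≤
        exp (3 * m + 3) * exp (3 * m + 3) * ((m + 2) / r * (2 / r)) := by
      gcongr
    have h5 : (3 * m + 2) / r * ((4 * m + 2) / r) ≤
        (3 * m + 4) * (3 * m + 4) * ((m + 2) / r * (2 / r)) := by
      have e6 : (3 * m + 4) * (3 * m + 4) * ((m + 2) / r * (2 / r)) -
          (3 * m + 2) / r * ((4 * m + 2) / r) =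
          ((3 * m + 4) * (3 * m + 4) * ((m + 2) * 2) - (3 * m + 2) * (4 * m + 2)) / (r * r) := by
        field_simp
      have : 0 ≤ ((3 * m + 4) * (3 * m + 4) * ((m + 2) * 2) -
          (3 * m + 2) * (4 * m + 2)) / (r * r) := by
        apply div_nonneg _ (by positivity)
        nlinarith [mul_pos hm0 hm0, mul_pos (mul_pos hm0 hm0) hm0]
      linarith
    linarith
  obtain ⟨κ, hκ, hκ0⟩ := intermediate_value_Icc hle hc ⟨h0.le, h1⟩
  refine ⟨κ, lt_of_le_of_ne hκ.1 ?_, by rw [hF] at hκ0; simp only at hκ0; linarith⟩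
  rintro rfl
  linarith

lemma exists_par {a r : ℝ} (ha : 0 < a) (hr : 0 < r) :
    ∃ κ p q : ℝ, 0 < κ ∧ Par (a / κ) (κ * r) p q := by
  obtain ⟨κ, h1, h2⟩ := exists_kappa ha hr
  have hκ : 0 < κ := by linarith
  refine ⟨κ, (1 - a / κ) * exp (κ * r), (1 + a / κ) * exp (-(κ * r)), hκ, ⟨by positivity,
    ?_, by positivity, ?_, rfl, rfl⟩⟩
  · rw [div_lt_div_iff₀ hκ (by norm_num)]; linarith
  · have e1 : (1 - a / κ) * (1 - 2 * (a / κ)) = ((κ - a) * (κ - 2 * a)) / (κ * κ) := by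
      field_simp
    have e2 : (1 + a / κ) * (1 + 2 * (a / κ)) = ((κ + a) * (κ + 2 * a)) / (κ * κ) := by
      field_simp
    rw [e1, e2, ← h2]; ring

end Pool.Agent.Robin
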