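import Mathlib

/-!
# Triangles and the lowest Robin eigenvalue: definitions
-/

set_option autoImplicit false

open MeasureTheory Set

namespace Pool.Agent.Robin

/-- The Euclidean plane. -/
abbrev Plane := EuclideanSpace ℝ (Fin 2)

/-- The closed triangle with vertices `A`, `B`, `C`. -/
def tri (A B C : Plane) : Set Plane := convexHull ℝ {A, B, C}

/-- The integral of `f` over the segment `PQ` with respect to arc length. -/
noncomputable def segInt (f : Plane → ℝ) (P Q : Plane) : ℝ :=
  dist P Q * ∫ t in (0:ℝ)..1, f (AffineMap.lineMap P Q t)

/-- The integral of `f` over the boundary of the triangle `ABC` with respect to arc length. -/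
noncomputable def bdInt (f : Plane → ℝ) (A B C : Plane) : ℝ :=
  segInt f A B + segInt f B C + segInt f C A

/-- The Rayleigh quotient of the Robin Laplacian on the triangle `ABC` with boundary
parameter `α`: `(∫_T |∇u|² + α ∫_{∂T} u²) / ∫_T u²`. -/
noncomputable def rayleigh (A B C : Plane) (α : ℝ) (u : Plane → ℝ) : ℝ :=
  ((∫ x in tri A B C, ‖fderiv ℝ u x‖ ^ 2) + α * bdInt (fun x => u x ^ 2) A B C) /
    ∫ x in tri A B C, u x ^ 2

/-- The lowest eigenvalue of the Robin Laplacian on the triangle `ABC` with boundary
parameter `α`, as the infimum of the Rayleigh quotient over the functions that are Lipschitz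
on the closed triangle (a dense subspace of `H¹`) and not almost everywhere zero there. -/
noncomputable def robin (A B C : Plane) (α : ℝ) : EReal :=
  ⨅ (u : Plane → ℝ) (_ : (∃ K, LipschitzOnWith K u (tri A B C)) ∧
    0 < ∫ x in tri A B C, u x ^ 2), ((rayleigh A B C α u : ℝ) : EReal)

end Pool.Agent.Robin
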