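import Mathlib
import Pool.Agent.Robin.Defs

set_option autoImplicit false

open MeasureTheory Set

namespace Pool.Agent.Robin

/-- Twice the signed area. -/
def J (A B C : Plane) : ℝ := (B 0 - A 0) * (C 1 - A 1) - (B 1 - A 1) * (C 0 - A 0)

/-- Parametrisation of the triangle. -/
def Phi (A B C : Plane) (p : ℝ × ℝ) : Plane := A + (p.1 • (B - A) + p.2 • (C - A))

/-- The standard simplex. -/
def Sx : Set (ℝ × ℝ) := {p | 0 ≤ p.1 ∧ 0 ≤ p.2 ∧ p.1 + p.2 ≤ 1}

lemma Sx_convex : Convex ℝ Sx := by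
  rintro ⟨a, b⟩ ⟨h1, h2, h3⟩ ⟨c, d⟩ ⟨k1, k2, k3⟩ s t hs ht hst
  simp only [Sx, mem_ofPred_eq, Prod.smul_mk, smul_eq_mul, Prod.mk_add_mk] at *
  refine ⟨by positivity, by positivity, ?_⟩
  nlinarith

lemma Sx_closed : IsClosed Sx := by
  have h1 : IsClosed {p : ℝ × ℝ | 0 ≤ p.1} := isClosed_le continuous_const continuous_fst
  have h2 : IsClosed {p : ℝ × ℝ | 0 ≤ p.2} := isClosed_le continuous_const continuous_snd
  have h3 : IsClosed {p : ℝ × ℝ | p.1 + p.2 ≤ 1} :=
    isClosed_le (continuous_fst.add continuous_snd) continuous_const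
  have : Sx = {p : ℝ × ℝ | 0 ≤ p.1} ∩ ({p : ℝ × ℝ | 0 ≤ p.2} ∩ {p : ℝ × ℝ | p.1 + p.2 ≤ 1}) := by
    ext p; simp [Sx]
  rw [this]
  exact h1.inter (h2.inter h3)

lemma Phi_comb (A B C : Plane) (p q : ℝ × ℝ) (s t : ℝ) (h : s + t = 1) :
    s • Phi A B C p + t • Phi A B C q = Phi A B C (s • p + t • q) := by
  have ht : t = 1 - s := by linarith
  subst ht
  simp only [Phi, Prod.fst_add, Prod.snd_add, Prod.smul_fst, Prod.smul_snd, smul_eq_mul]
  module

lemma tri_eq (A B C : Plane) : tri A B C = Phi A B C '' Sx := by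
  apply Subset.antisymm
  · apply convexHull_min
    · intro x hx
      simp only [mem_insert_iff, mem_singleton_iff] at hx
      rcases hx with rfl | rfl | rfl
      · exact ⟨(0, 0), by simp [Sx], by simp [Phi]⟩
      · exact ⟨(1, 0), by simp [Sx], by simp [Phi]⟩
      · exact ⟨(0, 1), by simp [Sx], by simp [Phi]⟩
    · rintro _ ⟨p, hp, rfl⟩ _ ⟨q, hq, rfl⟩ s t hs ht hst
      rw [Phi_comb _ _ _ _ _ _ _ hst]
      exact ⟨_, Sx_convex hp hq hs ht hst, rfl⟩
  · rintro _ ⟨⟨s, t⟩, ⟨h1, h2, h3⟩, rfl⟩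
    simp only at h1 h2 h3
    have hA : A ∈ tri A B C := subset_convexHull _ _ (by simp)
    have hB : B ∈ tri A B C := subset_convexHull _ _ (by simp)
    have hC : C ∈ tri A B C := subset_convexHull _ _ (by simp)
    have hcv : Convex ℝ (tri A B C) := convex_convexHull _ _
    have := hcv.sum_mem (t := (Finset.univ : Finset (Fin 3)))
      (w := (![1 - s - t, s, t] : Fin 3 → ℝ)) (z := ![A, B, C])
      (by intro i _; fin_cases i <;> simp <;> linarith)
      (by simp [Fin.sum_univ_three]; ring)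
      (by intro i _; fin_cases i <;> simp <;> assumption)
    have e : Phi A B C (s, t) = ∑ i, (![1 - s - t, s, t] : Fin 3 → ℝ) i • ![A, B, C] i := by
      simp only [Fin.sum_univ_three, Phi, Matrix.cons_val_zero, Matrix.cons_val_one,
        Matrix.cons_val]
      module
    rw [e]
    exact this

lemma tri_perm (A B C : Plane) : tri B C A = tri A B C := by
  unfold tri
  congr 1
  ext x
  simp only [mem_insert_iff, mem_singleton_iff]
  tauto

lemma J_perm (A B C : Plane) : J B C A = J A B C := by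
  unfold J; ring

lemma Phi_continuous (A B C : Plane) : Continuous (Phi A B C) := by
  unfold Phi
  fun_prop

lemma tri_compact (A B C : Plane) : IsCompact (tri A B C) :=
  Set.Finite.isCompact_convexHull (𝕜 := ℝ) (s := {A, B, C}) (Set.toFinite _)

lemma tri_convex (A B C : Plane) : Convex ℝ (tri A B C) := convex_convexHull _ _

lemma Phi_injective {A B C : Plane} (hJ : J A B C ≠ 0) : Function.Injective (Phi A B C) := by
  rintro ⟨s, t⟩ ⟨s', t'⟩ h
  have h0 := congrArg (fun x : Plane => x 0) h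
  have h1 := congrArg (fun x : Plane => x 1) h
  simp only [Phi, PiLp.add_apply, PiLp.smul_apply, PiLp.sub_apply, smul_eq_mul] at h0 h1
  have e1 : (s - s') * J A B C = 0 := by
    unfold J
    linear_combination (C 1 - A 1) * h0 - (C 0 - A 0) * h1
  have e2 : (t - t') * J A B C = 0 := by
    unfold J
    linear_combination (B 0 - A 0) * h1 - (B 1 - A 1) * h0
  have e1' := (mul_eq_zero.1 e1).resolve_right hJ
  have e2' := (mul_eq_zero.1 e2).resolve_right hJ
  ext <;> simp <;> linarith

lemma map_Phi {A B C : Plane} (hJ : J A B C ≠ 0) :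
    Measure.map (Phi A B C) (volume : Measure (ℝ × ℝ)) =
      ENNReal.ofReal |(J A B C)⁻¹| • (volume : Measure Plane) := by
  set M : Matrix (Fin 2) (Fin 2) ℝ := !![B 0 - A 0, C 0 - A 0; B 1 - A 1, C 1 - A 1] with hM
  have hdet : M.det = J A B C := by
    rw [hM, Matrix.det_fin_two_of]; unfold J; ring
  have h1 := (volume_preserving_finTwoArrow ℝ).symm
  have h2 := Real.map_matrix_volume_pi_eq_smul_volume_pi (M := M) (by rw [hdet]; exact hJ)
  have h3 := PiLp.volume_preserving_toLp (Fin 2)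
  have hcomp : Phi A B C = (fun y : Plane => A + y) ∘ (fun v : Fin 2 → ℝ => WithLp.toLp 2 v) ∘
      (Matrix.toLin' M) ∘ (MeasurableEquiv.finTwoArrow (α := ℝ)).symm := by
    funext p
    ext i
    fin_cases i
    · simp [Phi, hM, MeasurableEquiv.finTwoArrow, Matrix.toLin'_apply]
    · simp [Phi, hM, MeasurableEquiv.finTwoArrow, Matrix.toLin'_apply]
  have m1 : Measurable (Matrix.toLin' M : (Fin 2 → ℝ) → (Fin 2 → ℝ)) :=
    (LinearMap.continuous_of_finiteDimensional _).measurable
  have m2 : Measurable (fun v : Fin 2 → ℝ => (WithLp.toLp 2 v : Plane)) := h3.measurable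
  have m3 : Measurable (fun y : Plane => A + y) := by fun_prop
  rw [hcomp, ← Measure.map_map m3 (m2.comp (m1.comp h1.measurable)),
    ← Measure.map_map m2 (m1.comp h1.measurable), ← Measure.map_map m1 h1.measurable,
    h1.map_eq, h2, Measure.map_smul, h3.map_eq, Measure.map_smul, hdet]
  congr 1
  exact (measurePreserving_add_left (volume : Measure Plane) A).map_eq

lemma Phi_measurableEmbedding {A B C : Plane} (hJ : J A B C ≠ 0) :
    MeasurableEmbedding (Phi A B C) := by
  exact (Phi_continuous A B C).measurableEmbedding (Phi_injective hJ)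

lemma tri_setIntegral {A B C : Plane} (hJ : J A B C ≠ 0) (g : Plane → ℝ) :
    ∫ x in tri A B C, g x = |J A B C| * ∫ p in Sx, g (Phi A B C p) := by
  have hemb := Phi_measurableEmbedding hJ
  have h1 : ∫ p in Sx, g (Phi A B C p) =
      ∫ x in tri A B C, g x ∂(Measure.map (Phi A B C) (volume : Measure (ℝ × ℝ))) := by
    rw [hemb.setIntegral_map]
    congr 2
    rw [tri_eq, (Phi_injective hJ).preimage_image]
  rw [h1, map_Phi hJ, Measure.restrict_smul, integral_smul_measure]
  rw [ENNReal.toReal_ofReal (abs_nonneg _), smul_eq_mul, ← mul_assoc, abs_inv,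
    mul_inv_cancel₀ (abs_ne_zero.2 hJ), one_mul]

lemma tri_ae {A B C : Plane} (hJ : J A B C ≠ 0) {P : Plane → Prop}
    (h : ∀ᵐ x ∂(volume : Measure Plane), P x) :
    ∀ᵐ p ∂(volume : Measure (ℝ × ℝ)), P (Phi A B C p) := by
  have hemb := Phi_measurableEmbedding hJ
  have : ∀ᵐ x ∂(Measure.map (Phi A B C) (volume : Measure (ℝ × ℝ))), P x := by
    rw [map_Phi hJ]
    exact Measure.ae_smul_measure h _
  exact hemb.ae_map_iff.1 this

end Pool.Agent.Robin
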