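import Mathlib
import Pool.Agent.Robin.Tri

set_option autoImplicit false

open MeasureTheory Set

namespace Pool.Agent.Robin

lemma Sx_fubini {h : ℝ × ℝ → ℝ} (hi : IntegrableOn h Sx) :
    ∫ p in Sx, h p = ∫ t in (0:ℝ)..1, ∫ s in (0:ℝ)..(1 - t), h (s, t) := by
  have hS : MeasurableSet Sx := Sx_closed.measurableSet
  rw [← integral_indicator hS, Measure.volume_eq_prod,
    integral_prod_symm _ (by
      rw [← Measure.volume_eq_prod]; exact (integrable_indicator_iff hS).2 hi)]
  have hin : ∀ y : ℝ, ∫ x : ℝ, Sx.indicator h (x, y) =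
      (Icc (0:ℝ) 1).indicator (fun y => ∫ s in (0:ℝ)..(1 - y), h (s, y)) y := by
    intro y
    by_cases hy : y ∈ Icc (0:ℝ) 1
    · rw [indicator_of_mem hy, intervalIntegral.integral_of_le (by linarith [hy.2]),
        ← integral_Icc_eq_integral_Ioc, ← integral_indicator measurableSet_Icc]
      congr 1
      funext x
      by_cases hx : x ∈ Icc (0:ℝ) (1 - y)
      · rw [indicator_of_mem hx, indicator_of_mem]
        exact ⟨hx.1, hy.1, by simp only; linarith [hx.2]⟩
      · rw [indicator_of_notMem hx, indicator_of_notMem]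
        rintro ⟨h1, h2, h3⟩
        exact hx ⟨h1, by simp only at h3; linarith⟩
    · rw [indicator_of_notMem hy]
      have : (fun x : ℝ => Sx.indicator h (x, y)) = fun _ => 0 := by
        funext x
        rw [indicator_of_notMem]
        rintro ⟨h1, h2, h3⟩
        simp only at h1 h2 h3
        exact hy ⟨h2, by linarith⟩
      rw [this, integral_zero]
  simp_rw [hin]
  rw [integral_indicator measurableSet_Icc, integral_Icc_eq_integral_Ioc,
    ← intervalIntegral.integral_of_le zero_le_one]

/-- A function which is Lipschitz on the triangle agrees there with a globally Lipschitz one,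
including the derivative almost everywhere. -/
lemma tri_extend {A B C : Plane} {f : Plane → ℝ} {K : NNReal}
    (hf : LipschitzOnWith K f (tri A B C)) :
    ∃ g : Plane → ℝ, LipschitzWith K g ∧ EqOn f g (tri A B C) ∧
      ∀ᵐ x ∂(volume : Measure Plane), x ∈ tri A B C →
        fderiv ℝ f x = fderiv ℝ g x ∧ DifferentiableAt ℝ g x ∧ DifferentiableAt ℝ f x := by
  obtain ⟨g, hg, hfg⟩ := hf.extend_real
  refine ⟨g, hg, hfg, ?_⟩
  have h0 : ∀ᵐ x ∂(volume : Measure Plane), x ∉ frontier (tri A B C) := by
    rw [← measure_eq_zero_iff_ae_notMem]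
    exact (tri_convex A B C).addHaar_frontier _
  filter_upwards [h0, hg.ae_differentiableAt] with x hx hd hxT
  have hint : x ∈ interior (tri A B C) := by
    by_contra hni
    apply hx
    rw [(tri_compact A B C).isClosed.frontier_eq]
    exact ⟨hxT, hni⟩
  have heq : f =ᶠ[nhds x] g := by
    filter_upwards [mem_interior_iff_mem_nhds.1 hint] with y hy using hfg hy
  exact ⟨heq.fderiv_eq, hd, heq.differentiableAt_iff.2 hd⟩

lemma Phi_edge (A B C : Plane) (t : ℝ) : Phi A B C (1 - t, t) = AffineMap.lineMap B C t := by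
  simp only [Phi, AffineMap.lineMap_apply, vsub_eq_sub, vadd_eq_add]
  module

lemma Phi_edge' (A B C : Plane) (t : ℝ) : Phi A B C (0, t) = AffineMap.lineMap A C t := by
  simp only [Phi, AffineMap.lineMap_apply, vsub_eq_sub, vadd_eq_add]
  module

lemma lineMap_mem_tri {A B C P Q : Plane} (hP : P ∈ tri A B C) (hQ : Q ∈ tri A B C)
    {t : ℝ} (ht : t ∈ Icc (0:ℝ) 1) : AffineMap.lineMap P Q t ∈ tri A B C := by
  have := (tri_convex A B C) hP hQ (sub_nonneg.2 ht.2) ht.1 (by ring)
  rw [AffineMap.lineMap_apply_module]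
  exact this

lemma mem_tri_A (A B C : Plane) : A ∈ tri A B C := subset_convexHull _ _ (by simp)
lemma mem_tri_B (A B C : Plane) : B ∈ tri A B C := subset_convexHull _ _ (by simp)
lemma mem_tri_C (A B C : Plane) : C ∈ tri A B C := subset_convexHull _ _ (by simp)

theorem tri_ftc {A B C : Plane} (hJ : J A B C ≠ 0) {f : Plane → ℝ} {K : NNReal}
    (hf : LipschitzOnWith K f (tri A B C)) :
    ∫ x in tri A B C, fderiv ℝ f x (B - A) = |J A B C| *
      ((∫ t in (0:ℝ)..1, f (AffineMap.lineMap B C t)) -
        ∫ t in (0:ℝ)..1, f (AffineMap.lineMap A C t)) := by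
  obtain ⟨g, hg, hfg, hae⟩ := tri_extend hf
  have hT : MeasurableSet (tri A B C) := (tri_compact A B C).isClosed.measurableSet
  have e1 : ∫ x in tri A B C, fderiv ℝ f x (B - A) = ∫ x in tri A B C, fderiv ℝ g x (B - A) := by
    apply setIntegral_congr_ae hT
    filter_upwards [hae] with x hx hxT
    rw [(hx hxT).1]
  rw [e1, tri_setIntegral hJ]
  congr 1
  -- integrability
  have hmeas : Measurable fun x : Plane => fderiv ℝ g x (B - A) :=
    measurable_fderiv_apply_const ℝ g (B - A)
  have hbd : ∀ x : Plane, ‖fderiv ℝ g x (B - A)‖ ≤ K * ‖B - A‖ := fun x =>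
    (ContinuousLinearMap.le_opNorm _ _).trans
      (mul_le_mul_of_nonneg_right (norm_fderiv_le_of_lipschitz ℝ hg) (norm_nonneg _))
  have hSfin : volume Sx ≠ ⊤ := by
    have hsub : Sx ⊆ Icc (0:ℝ) 1 ×ˢ Icc (0:ℝ) 1 := by
      rintro ⟨a, b⟩ ⟨h1, h2, h3⟩
      simp only at h1 h2 h3
      exact ⟨⟨h1, by simp only; linarith⟩, ⟨h2, by simp only; linarith⟩⟩
    refine ne_top_of_le_ne_top ?_ (measure_mono hsub)
    exact ((isCompact_Icc.prod isCompact_Icc).measure_lt_top).ne
  have hint : IntegrableOn (fun p : ℝ × ℝ => fderiv ℝ g (Phi A B C p) (B - A)) Sx := by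
    refine Measure.integrableOn_of_bounded hSfin
      ((hmeas.comp (Phi_continuous A B C).measurable).aestronglyMeasurable)
      (Filter.Eventually.of_forall fun p => hbd _)
  rw [Sx_fubini hint]
  -- a.e. differentiability along slices
  have hd : ∀ᵐ p ∂(volume : Measure (ℝ × ℝ)), DifferentiableAt ℝ g (Phi A B C p) :=
    tri_ae hJ hg.ae_differentiableAt
  have hd' : ∀ᵐ t : ℝ, ∀ᵐ s : ℝ, DifferentiableAt ℝ g (Phi A B C (s, t)) := by
    have hsw : ∀ᵐ q ∂((volume : Measure ℝ).prod (volume : Measure ℝ)),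
        DifferentiableAt ℝ g (Phi A B C q.swap) := by
      have := (Measure.measurePreserving_swap (μ := (volume : Measure ℝ))
        (ν := (volume : Measure ℝ))).quasiMeasurePreserving.ae hd
      exact this
    exact Measure.ae_ae_of_ae_prod hsw
  rw [← intervalIntegral.integral_sub]
  · apply intervalIntegral.integral_congr_ae
    filter_upwards [hd'] with t ht htm
    rw [uIoc_of_le zero_le_one] at htm
    have hlip : LipschitzWith (K * ‖B - A‖₊) (fun s : ℝ => g (Phi A B C (s, t))) := by
      apply hg.comp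
      apply LipschitzWith.of_dist_le_mul
      intro s s'
      rw [dist_eq_norm, dist_eq_norm]
      have : Phi A B C (s, t) - Phi A B C (s', t) = (s - s') • (B - A) := by
        simp only [Phi]; module
      rw [this, norm_smul]
      simp [mul_comm]
    have hac : AbsolutelyContinuousOnInterval (fun s : ℝ => g (Phi A B C (s, t))) 0 (1 - t) :=
      (hlip.lipschitzOnWith (s := uIcc 0 (1 - t))).absolutelyContinuousOnInterval
    have hftc := hac.integral_deriv_eq_sub
    have hcongr : ∫ s in (0:ℝ)..(1 - t), fderiv ℝ g (Phi A B C (s, t)) (B - A) =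
        ∫ s in (0:ℝ)..(1 - t), deriv (fun s : ℝ => g (Phi A B C (s, t))) s := by
      apply intervalIntegral.integral_congr_ae
      filter_upwards [ht] with s hs _
      have h1 : HasDerivAt (fun s : ℝ => Phi A B C (s, t)) (B - A) s := by
        have h2 : HasDerivAt (fun s : ℝ => A + (s • (B - A) + t • (C - A)))
            (((1:ℝ) • (B - A))) s :=
          ((((hasDerivAt_id s).smul_const (B - A)).add_const (t • (C - A))).const_add A)
        rw [one_smul] at h2
        exact h2
      exact (hs.hasFDerivAt.comp_hasDerivAt s h1).deriv.symm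
    rw [hcongr, hftc, Phi_edge, Phi_edge']
    have ht' : t ∈ Icc (0:ℝ) 1 := ⟨htm.1.le, htm.2⟩
    rw [hfg (lineMap_mem_tri (mem_tri_B A B C) (mem_tri_C A B C) ht'),
      hfg (lineMap_mem_tri (mem_tri_A A B C) (mem_tri_C A B C) ht')]
  · apply ContinuousOn.intervalIntegrable
    rw [uIcc_of_le zero_le_one]
    exact hf.continuousOn.comp (by fun_prop)
      (fun t ht => lineMap_mem_tri (mem_tri_B A B C) (mem_tri_C A B C) ht)
  · apply ContinuousOn.intervalIntegrable
    rw [uIcc_of_le zero_le_one]
    exact hf.continuousOn.comp (by fun_prop)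
      (fun t ht => lineMap_mem_tri (mem_tri_A A B C) (mem_tri_C A B C) ht)

end Pool.Agent.Robin
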