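import Mathlib
import Pool.Agent.Robin.FTC

set_option autoImplicit false

open MeasureTheory Set

namespace Pool.Agent.Robin

/-- Dot product in coordinates. -/
def dt (v w : Plane) : ℝ := v 0 * w 0 + v 1 * w 1

lemma norm_sq_dt (v : Plane) : ‖v‖ ^ 2 = dt v v := by
  rw [EuclideanSpace.real_norm_sq_eq, Fin.sum_univ_two]
  unfold dt; ring

lemma dist_sq (v w : Plane) : dist v w ^ 2 = (v 0 - w 0) ^ 2 + (v 1 - w 1) ^ 2 := by
  rw [dist_eq_norm, norm_sq_dt]
  simp only [dt, PiLp.sub_apply]; ring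

/-- A triangle `O B C` in the frame `(n, e)`: `B - O = r n - y e`, `C - O = r n + z e`. -/
structure Cell (O B C n e : Plane) (r y z : ℝ) : Prop where
  nn : n 0 ^ 2 + n 1 ^ 2 = 1
  ee : e 0 ^ 2 + e 1 ^ 2 = 1
  ne : n 0 * e 0 + n 1 * e 1 = 0
  hB : ∀ i, B i = O i + (r * n i - y * e i)
  hC : ∀ i, C i = O i + (r * n i + z * e i)
  hr : 0 < r
  hy : 0 < y
  hz : 0 < z

lemma cell_of {A B C O : Plane} {x y z r σ : ℝ} (hx : 0 < x) (hy : 0 < y) (hz : 0 < z)
    (hr : 0 < r)
    (hAB : (B 0 - A 0) ^ 2 + (B 1 - A 1) ^ 2 = (x + y) ^ 2)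
    (hBC : (C 0 - B 0) ^ 2 + (C 1 - B 1) ^ 2 = (y + z) ^ 2)
    (hCA : (A 0 - C 0) ^ 2 + (A 1 - C 1) ^ 2 = (z + x) ^ 2)
    (hO : ∀ i, 2 * (x + y + z) * O i = (y + z) * A i + (z + x) * B i + (x + y) * C i)
    (hσ : σ ^ 2 = 1) (hJ : 2 * r * (x + y + z) = σ * J A B C) :
    ∃ n e : Plane, Cell O B C n e r y z := by
  have hyz : y + z ≠ 0 := by positivity
  have hS : x + y + z ≠ 0 := by positivity
  have h0 := hO 0
  have h1 := hO 1
  unfold J at hJ
  have k0 : 2 * (x + y + z) * (y + z) * (B 0 - O 0) =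
      2 * (x + y + z) * r * σ * (C 1 - B 1) - 2 * (x + y + z) * y * (C 0 - B 0) := by
    linear_combination (-(y + z)) * h0 - σ * (C 1 - B 1) * hJ -
      ((B 0 - A 0) * (C 1 - A 1) - (B 1 - A 1) * (C 0 - A 0)) * (C 1 - B 1) * hσ -
      (B 0 - A 0) * hBC + (C 0 - B 0) / 2 * (hCA - hAB - hBC)
  have k1 : 2 * (x + y + z) * (y + z) * (B 1 - O 1) =
      -(2 * (x + y + z) * r * σ * (C 0 - B 0)) - 2 * (x + y + z) * y * (C 1 - B 1) := by
    linear_combination (-(y + z)) * h1 + σ * (C 0 - B 0) * hJ +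
      ((B 0 - A 0) * (C 1 - A 1) - (B 1 - A 1) * (C 0 - A 0)) * (C 0 - B 0) * hσ -
      (B 1 - A 1) * hBC + (C 1 - B 1) / 2 * (hCA - hAB - hBC)
  have h2S : 2 * (x + y + z) ≠ 0 := by positivity
  have m0 : (y + z) * (B 0 - O 0) = r * σ * (C 1 - B 1) - y * (C 0 - B 0) := by
    apply mul_left_cancel₀ h2S
    linear_combination k0
  have m1 : (y + z) * (B 1 - O 1) = -(r * σ * (C 0 - B 0)) - y * (C 1 - B 1) := by
    apply mul_left_cancel₀ h2S
    linear_combination k1
  refine ⟨!₂[σ * (C 1 - B 1) / (y + z), -(σ * (C 0 - B 0) / (y + z))],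
    !₂[(C 0 - B 0) / (y + z), (C 1 - B 1) / (y + z)], ?_, ?_, ?_, ?_, ?_, hr, hy, hz⟩
  · simp only [Matrix.cons_val_zero, Matrix.cons_val_one, Matrix.cons_val_fin_one]
    field_simp
    linear_combination ((C 0 - B 0) ^ 2 + (C 1 - B 1) ^ 2) * hσ + hBC
  · simp only [Matrix.cons_val_zero, Matrix.cons_val_one, Matrix.cons_val_fin_one]
    field_simp
    linear_combination hBC
  · simp only [Matrix.cons_val_zero, Matrix.cons_val_one, Matrix.cons_val_fin_one]
    ring
  · intro i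
    fin_cases i
    · simp only [Fin.zero_eta, Matrix.cons_val_zero]
      field_simp
      linear_combination m0
    · simp only [Fin.mk_one, Matrix.cons_val_one, Matrix.cons_val_fin_one]
      field_simp
      linear_combination m1
  · intro i
    fin_cases i
    · simp only [Fin.zero_eta, Matrix.cons_val_zero]
      field_simp
      linear_combination m0
    · simp only [Fin.mk_one, Matrix.cons_val_one, Matrix.cons_val_fin_one]
      field_simp
      linear_combination m1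

/-- The incircle data of a triangle. -/
structure Inc (A B C O n₁ e₁ n₂ e₂ n₃ e₃ : Plane) (x y z r : ℝ) : Prop where
  c1 : Cell O B C n₁ e₁ r y z
  c2 : Cell O C A n₂ e₂ r z x
  c3 : Cell O A B n₃ e₃ r x y
  hrs : r ^ 2 * (x + y + z) = x * y * z
  hJ : |J A B C| = 2 * r * (x + y + z)
  hO : ∀ i, 2 * (x + y + z) * O i = (y + z) * A i + (z + x) * B i + (x + y) * C i

lemma exists_inc {A B C : Plane} (hJ : J A B C ≠ 0) :
    ∃ (O n₁ e₁ n₂ e₂ n₃ e₃ : Plane) (x y z r : ℝ),
      Inc A B C O n₁ e₁ n₂ e₂ n₃ e₃ x y z r := by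
  set x := (dist A B + dist C A - dist B C) / 2 with hxd
  set y := (dist A B + dist B C - dist C A) / 2 with hyd
  set z := (dist B C + dist C A - dist A B) / 2 with hzd
  have t1 := dist_triangle B A C
  have t2 := dist_triangle A B C
  have t3 := dist_triangle A C B
  rw [dist_comm B A, dist_comm A C] at t1
  rw [dist_comm A C] at t2
  rw [dist_comm C B, dist_comm A C] at t3
  have hx0 : 0 ≤ x := by rw [hxd]; linarith
  have hy0 : 0 ≤ y := by rw [hyd]; linarith
  have hz0 : 0 ≤ z := by rw [hzd]; linarith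
  have eAB : x + y = dist A B := by rw [hxd, hyd]; ring
  have eBC : y + z = dist B C := by rw [hyd, hzd]; ring
  have eCA : z + x = dist C A := by rw [hxd, hzd]; ring
  have hAB : (B 0 - A 0) ^ 2 + (B 1 - A 1) ^ 2 = (x + y) ^ 2 := by
    rw [eAB, dist_sq]; ring
  have hBC : (C 0 - B 0) ^ 2 + (C 1 - B 1) ^ 2 = (y + z) ^ 2 := by
    rw [eBC, dist_sq]; ring
  have hCA : (A 0 - C 0) ^ 2 + (A 1 - C 1) ^ 2 = (z + x) ^ 2 := by
    rw [eCA, dist_sq]; ring
  clear_value x y z
  have hJ2 : J A B C ^ 2 = 4 * (x + y + z) * (x * y * z) := by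
    have hin : (B 0 - A 0) * (C 0 - A 0) + (B 1 - A 1) * (C 1 - A 1) =
        ((x + y) ^ 2 + (z + x) ^ 2 - (y + z) ^ 2) / 2 := by
      linear_combination (hAB + hCA - hBC) / 2
    have : J A B C ^ 2 = ((B 0 - A 0) ^ 2 + (B 1 - A 1) ^ 2) * ((A 0 - C 0) ^ 2 + (A 1 - C 1) ^ 2) -
        ((B 0 - A 0) * (C 0 - A 0) + (B 1 - A 1) * (C 1 - A 1)) ^ 2 := by
      unfold J; ring
    rw [this, hAB, hCA, hin]; ring
  have hJ2p : 0 < J A B C ^ 2 := by positivity
  have hprod : x * y * z ≠ 0 := by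
    intro h; rw [h, mul_zero] at hJ2; linarith
  have hx : 0 < x := lt_of_le_of_ne hx0 (by rintro rfl; simp at hprod)
  have hy : 0 < y := lt_of_le_of_ne hy0 (by rintro rfl; simp at hprod)
  have hz : 0 < z := lt_of_le_of_ne hz0 (by rintro rfl; simp at hprod)
  set r := |J A B C| / (2 * (x + y + z)) with hrd
  have hr : 0 < r := by rw [hrd]; positivity
  have hJr : |J A B C| = 2 * r * (x + y + z) := by rw [hrd]; field_simp
  have hrs : r ^ 2 * (x + y + z) = x * y * z := by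
    have h1 : |J A B C| ^ 2 = 4 * (x + y + z) * (x * y * z) := by rw [sq_abs, hJ2]
    rw [hJr] at h1
    have h2 : 4 * (x + y + z) ≠ 0 := by positivity
    apply mul_left_cancel₀ h2
    linear_combination h1
  set σ := J A B C / |J A B C| with hσd
  have habs : |J A B C| ≠ 0 := by positivity
  have hσ : σ ^ 2 = 1 := by
    rw [hσd, div_pow, sq_abs]; field_simp
  have hσJ : σ * J A B C = |J A B C| := by
    rw [hσd]; field_simp; rw [sq_abs]
  have hrJ : 2 * r * (x + y + z) = σ * J A B C := by rw [hσJ, hJr]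
  set O : Plane := (1 / (2 * (x + y + z))) • ((y + z) • A + (z + x) • B + (x + y) • C) with hOd
  have hO : ∀ i, 2 * (x + y + z) * O i = (y + z) * A i + (z + x) * B i + (x + y) * C i := by
    intro i
    rw [hOd]
    simp only [PiLp.add_apply, PiLp.smul_apply, smul_eq_mul]
    field_simp
  clear_value O r σ
  obtain ⟨n₁, e₁, h1⟩ := cell_of hx hy hz hr hAB hBC hCA hO hσ hrJ
  obtain ⟨n₂, e₂, h2⟩ := cell_of (A := B) (B := C) (C := A) (O := O) hy hz hx hr hBC hCA hAB
    (fun i => by have := hO i; linear_combination this) hσ (by rw [J_perm]; linarith)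
  obtain ⟨n₃, e₃, h3⟩ := cell_of (A := C) (B := A) (C := B) (O := O) hz hx hy hr hCA hAB hBC
    (fun i => by have := hO i; linear_combination this) hσ
    (by rw [J_perm B C A, J_perm A B C]; linarith)
  exact ⟨O, n₁, e₁, n₂, e₂, n₃, e₃, x, y, z, r, h1, h2, h3, hrs, hJr, hO⟩

end Pool.Agent.Robin
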