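import Mathlib
import Pool.Agent.Robin.Geom
import Pool.Agent.Robin.Func

set_option autoImplicit false

open MeasureTheory Set

namespace Pool.Agent.Robin

lemma tri_lip {A B C : Plane} {f : Plane → ℝ} (hf : LocallyLipschitz f) :
    ∃ K, LipschitzOnWith K f (tri A B C) :=
  LocallyLipschitzOn.exists_lipschitzOnWith_of_compact (tri_compact A B C)
    hf.locallyLipschitzOn

lemma tri_meas (A B C : Plane) : MeasurableSet (tri A B C) :=
  (tri_compact A B C).isClosed.measurableSet

lemma integrableOn_fderiv {A B C : Plane} {f : Plane → ℝ} {K : NNReal}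
    (hf : LipschitzOnWith K f (tri A B C)) (v : Plane) :
    IntegrableOn (fun x => fderiv ℝ f x v) (tri A B C) := by
  obtain ⟨g, hg, hfg, hae⟩ := tri_extend hf
  have hmeas : Measurable fun x : Plane => fderiv ℝ g x v :=
    measurable_fderiv_apply_const ℝ g v
  have hbd : ∀ x : Plane, ‖fderiv ℝ g x v‖ ≤ K * ‖v‖ := fun x =>
    (ContinuousLinearMap.le_opNorm _ _).trans
      (mul_le_mul_of_nonneg_right (norm_fderiv_le_of_lipschitz ℝ hg) (norm_nonneg _))
  have h1 : IntegrableOn (fun x => fderiv ℝ g x v) (tri A B C) :=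
    Measure.integrableOn_of_bounded (tri_compact A B C).measure_lt_top.ne
      hmeas.aestronglyMeasurable (Filter.Eventually.of_forall hbd)
  refine h1.congr ?_
  rw [Filter.EventuallyEq, ae_restrict_iff' (tri_meas A B C)]
  filter_upwards [hae] with x hx hxT
  rw [(hx hxT).1]

lemma tri_comm (A B C : Plane) : tri A C B = tri A B C := by
  unfold tri; congr 1; ext x; simp only [mem_insert_iff, mem_singleton_iff]; tauto

lemma J_comm (A B C : Plane) : J A C B = - J A B C := by
  unfold J; ring

lemma edge_symm (f : Plane → ℝ) (P Q : Plane) :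
    ∫ t in (0:ℝ)..1, f (AffineMap.lineMap Q P t) = ∫ t in (0:ℝ)..1, f (AffineMap.lineMap P Q t) := by
  have := intervalIntegral.integral_comp_sub_left (a := 0) (b := 1)
    (fun t => f (AffineMap.lineMap P Q t)) 1
  simp only [sub_self, sub_zero] at this
  rw [← this]
  congr 1
  funext t
  rw [AffineMap.lineMap_apply_one_sub]

lemma edge_integrable {A B C P Q : Plane} {f : Plane → ℝ}
    (hf : ContinuousOn f (tri A B C)) (hP : P ∈ tri A B C) (hQ : Q ∈ tri A B C) :
    IntervalIntegrable (fun t => f (AffineMap.lineMap P Q t)) volume 0 1 := by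
  apply ContinuousOn.intervalIntegrable
  rw [uIcc_of_le zero_le_one]
  exact hf.comp (by fun_prop) (fun t ht => lineMap_mem_tri hP hQ ht)

namespace Cell

variable {O B C n e : Plane} {r y z : ℝ} (hc : Cell O B C n e r y z)
include hc

lemma J_sq : J O B C ^ 2 = (r * (y + z)) ^ 2 := by
  have h1 := hc.nn
  have h2 := hc.ee
  have h3 := hc.ne
  unfold J
  rw [hc.hB 0, hc.hB 1, hc.hC 0, hc.hC 1]
  have hd : (n 0 * e 1 - n 1 * e 0) ^ 2 = 1 := by
    linear_combination h1 + (n 0 ^ 2 + n 1 ^ 2) * h2 - (n 0 * e 0 + n 1 * e 1) * h3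
  linear_combination (r * (y + z)) ^ 2 * hd

lemma J_abs : |J O B C| = r * (y + z) := by
  have h1 := hc.J_sq
  have hr := hc.hr
  have hy := hc.hy
  have hz := hc.hz
  have : |J O B C| = |r * (y + z)| := (sq_eq_sq_iff_abs_eq_abs _ _).1 h1
  rw [this, abs_of_pos (by positivity)]

lemma J_ne : J O B C ≠ 0 := by
  have h1 := hc.J_abs
  have hr := hc.hr
  have hy := hc.hy
  have hz := hc.hz
  intro h
  rw [h, abs_zero] at h1
  have : 0 < r * (y + z) := by positivity
  linarith

lemma dist_BC : dist B C = y + z := by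
  have hy := hc.hy
  have hz := hc.hz
  have h1 : dist B C ^ 2 = (y + z) ^ 2 := by
    rw [dist_sq, hc.hB 0, hc.hB 1, hc.hC 0, hc.hC 1]
    linear_combination (y + z) ^ 2 * hc.ee
  exact (pow_left_inj₀ dist_nonneg (by positivity) (by norm_num)).1 h1

lemma n_eq : n = (1 / (r * (y + z))) • (z • (B - O) + y • (C - O)) := by
  have hr := hc.hr
  have hy := hc.hy
  have hz := hc.hz
  ext i
  simp only [PiLp.add_apply, PiLp.smul_apply, PiLp.sub_apply, smul_eq_mul, hc.hB i, hc.hC i]
  field_simp
  ring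

lemma e_eq : e = (1 / (y + z)) • ((C - O) - (B - O)) := by
  have hy := hc.hy
  have hz := hc.hz
  ext i
  simp only [PiLp.smul_apply, PiLp.sub_apply, smul_eq_mul, hc.hB i, hc.hC i]
  field_simp
  ring

lemma div_thm {f g : Plane → ℝ} {K K' : NNReal} (hf : LipschitzOnWith K f (tri O B C))
    (hg : LipschitzOnWith K' g (tri O B C)) :
    ∫ x in tri O B C, (fderiv ℝ f x n + fderiv ℝ g x e) =
      (y + z) * (∫ t in (0:ℝ)..1, f (AffineMap.lineMap B C t)) +
      (∫ t in (0:ℝ)..1, (r * g (AffineMap.lineMap O C t) - z * f (AffineMap.lineMap O C t))) -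
      (∫ t in (0:ℝ)..1, (r * g (AffineMap.lineMap O B t) + y * f (AffineMap.lineMap O B t))) := by
  have hr := hc.hr
  have hy := hc.hy
  have hz := hc.hz
  have hJ := hc.J_ne
  have hJ' : J O C B ≠ 0 := by rw [J_comm]; exact neg_ne_zero.2 hJ
  have key : ∀ (h : Plane → ℝ) (L : NNReal), LipschitzOnWith L h (tri O B C) →
      (∫ x in tri O B C, fderiv ℝ h x (B - O) = r * (y + z) *
        ((∫ t in (0:ℝ)..1, h (AffineMap.lineMap B C t)) -
          ∫ t in (0:ℝ)..1, h (AffineMap.lineMap O C t))) ∧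
      (∫ x in tri O B C, fderiv ℝ h x (C - O) = r * (y + z) *
        ((∫ t in (0:ℝ)..1, h (AffineMap.lineMap B C t)) -
          ∫ t in (0:ℝ)..1, h (AffineMap.lineMap O B t))) := by
    intro h L hh
    constructor
    · rw [tri_ftc hJ hh, hc.J_abs]
    · have := tri_ftc hJ' (by rw [tri_comm]; exact hh)
      rw [tri_comm, J_comm, abs_neg, hc.J_abs, edge_symm] at this
      exact this
  obtain ⟨f1, f2⟩ := key f K hf
  obtain ⟨g1, g2⟩ := key g K' hg
  have fi := fun v => integrableOn_fderiv hf v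
  have gi := fun v => integrableOn_fderiv hg v
  rw [integral_add (fi n) (gi e)]
  have en : ∫ x in tri O B C, fderiv ℝ f x n = (1 / (r * (y + z))) *
      (z * (∫ x in tri O B C, fderiv ℝ f x (B - O)) +
        y * ∫ x in tri O B C, fderiv ℝ f x (C - O)) := by
    rw [← integral_const_mul, ← integral_const_mul, ← integral_add ((fi _).const_mul _)
      ((fi _).const_mul _), ← integral_const_mul]
    apply integral_congr_ae
    apply Filter.Eventually.of_forall
    intro x
    simp only
    conv_lhs => rw [hc.n_eq]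
    simp only [map_smul, map_add, smul_eq_mul]
  have ee : ∫ x in tri O B C, fderiv ℝ g x e = (1 / (y + z)) *
      ((∫ x in tri O B C, fderiv ℝ g x (C - O)) -
        ∫ x in tri O B C, fderiv ℝ g x (B - O)) := by
    rw [← integral_sub (gi _) (gi _), ← integral_const_mul]
    apply integral_congr_ae
    apply Filter.Eventually.of_forall
    intro x
    simp only
    conv_lhs => rw [hc.e_eq]
    rw [map_smul, map_sub, smul_eq_mul]
  have eO := mem_tri_A O B C
  have eB := mem_tri_B O B C
  have eC := mem_tri_C O B C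
  have i1 := edge_integrable hf.continuousOn eO eC
  have i2 := edge_integrable hg.continuousOn eO eC
  have i3 := edge_integrable hf.continuousOn eO eB
  have i4 := edge_integrable hg.continuousOn eO eB
  rw [en, ee, f1, f2, g1, g2, intervalIntegral.integral_sub (i2.const_mul _) (i1.const_mul _),
    intervalIntegral.integral_add (i4.const_mul _) (i3.const_mul _),
    intervalIntegral.integral_const_mul, intervalIntegral.integral_const_mul,
    intervalIntegral.integral_const_mul, intervalIntegral.integral_const_mul]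
  field_simp
  ring

end Cell

/-- Norm of a functional in an orthonormal frame. -/
lemma clm_norm_sq (L : Plane →L[ℝ] ℝ) {n e : Plane} (nn : n 0 ^ 2 + n 1 ^ 2 = 1)
    (ee : e 0 ^ 2 + e 1 ^ 2 = 1) (ne : n 0 * e 0 + n 1 * e 1 = 0) :
    ‖L‖ ^ 2 = (L n) ^ 2 + (L e) ^ 2 := by
  set w := (InnerProductSpace.toDual ℝ Plane).symm L with hw
  have hL : ∀ v, L v = w 0 * v 0 + w 1 * v 1 := by
    intro v
    have h1 : inner ℝ w v = L v := InnerProductSpace.toDual_symm_apply
    rw [← h1, PiLp.inner_apply, Fin.sum_univ_two]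
    simp only [RCLike.inner_apply, conj_trivial]
    ring
  have hn : ‖L‖ = ‖w‖ := by
    rw [hw, LinearIsometryEquiv.norm_map]
  rw [hn, norm_sq_dt, hL, hL]
  unfold dt
  have hd : (n 0 * e 1 - n 1 * e 0) ^ 2 = 1 := by
    linear_combination nn + (n 0 ^ 2 + n 1 ^ 2) * ee - (n 0 * e 0 + n 1 * e 1) * ne
  have e0 : e 0 = -(n 1 * (n 0 * e 1 - n 1 * e 0)) := by
    linear_combination (-e 0) * nn + n 0 * ne
  have e1 : e 1 = n 0 * (n 0 * e 1 - n 1 * e 0) := by
    linear_combination (-e 1) * nn + n 1 * ne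
  set d := n 0 * e 1 - n 1 * e 0 with hdd
  clear_value d
  rw [e0, e1]
  have hd' : d ^ 2 - 1 = 0 := by linarith
  have nn' : n 0 ^ 2 + n 1 ^ 2 - 1 = 0 := by linarith
  linear_combination (-(w 0 ^ 2 + w 1 ^ 2)) * nn' -
    ((w 0 * n 1) ^ 2 + (w 1 * n 0) ^ 2 - 2 * (w 0 * n 1) * (w 1 * n 0)) * hd'

end Pool.Agent.Robin
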