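import Mathlib
import Pool.Agent.Robin.Cell

set_option autoImplicit false

open MeasureTheory Set

namespace Pool.Agent.Robin

/-- Linear coordinate. -/
def lc (O n : Plane) (P : Plane) : ℝ := (P 0 - O 0) * n 0 + (P 1 - O 1) * n 1

lemma lc_contDiff (O n : Plane) {m : WithTop ℕ∞} : ContDiff ℝ m (lc O n) := by
  unfold lc
  have h0 : ContDiff ℝ m (fun P : Plane => P 0) := (EuclideanSpace.proj (𝕜 := ℝ) (0 : Fin 2)).contDiff
  have h1 : ContDiff ℝ m (fun P : Plane => P 1) := (EuclideanSpace.proj (𝕜 := ℝ) (1 : Fin 2)).contDiff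
  exact ((h0.sub contDiff_const).mul contDiff_const).add ((h1.sub contDiff_const).mul contDiff_const)

lemma U_contDiff (p q : ℝ) {m : WithTop ℕ∞} : ContDiff ℝ m (fun w : ℝ × ℝ => U p q w.1 w.2) := by
  unfold U; fun_prop

lemma Ux_contDiff (p q : ℝ) {m : WithTop ℕ∞} : ContDiff ℝ m (fun w : ℝ × ℝ => Ux p q w.1 w.2) := by
  unfold Ux; fun_prop

lemma Uy_contDiff (p q : ℝ) {m : WithTop ℕ∞} : ContDiff ℝ m (fun w : ℝ × ℝ => Uy p q w.1 w.2) := by
  unfold Uy; fun_prop

/-- second derivative in `x` -/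
noncomputable def Uxx (p q x y : ℝ) : ℝ :=
  p * Real.exp (-x) + q * Real.exp x +
    (p * Real.exp (x / 2) + q * Real.exp (-(x / 2))) / 2 * Real.cosh (√3 / 2 * y)

/-- second derivative in `y` -/
noncomputable def Uyy (p q x y : ℝ) : ℝ :=
  3 / 2 * (p * Real.exp (x / 2) + q * Real.exp (-(x / 2))) * Real.cosh (√3 / 2 * y)

lemma Uxx_add_Uyy (p q x y : ℝ) : Uxx p q x y + Uyy p q x y = U p q x y := by
  unfold Uxx Uyy U; ring

lemma U_x (p q x y : ℝ) : HasDerivAt (fun s => U p q s y) (Ux p q x y) x := by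
  have h1 : HasDerivAt (fun s : ℝ => Real.exp (-s)) (Real.exp (-x) * (-1)) x := (hasDerivAt_neg x).exp
  have h2 : HasDerivAt (fun s : ℝ => Real.exp (s / 2)) (Real.exp (x / 2) * (1 / 2)) x :=
    ((hasDerivAt_id' x).div_const 2).exp
  have h3 : HasDerivAt (fun s : ℝ => Real.exp (-(s / 2))) (Real.exp (-(x / 2)) * (-(1 / 2))) x :=
    (((hasDerivAt_id' x).div_const 2).fun_neg).exp
  have h := ((h1.const_mul p).fun_add ((Real.hasDerivAt_exp x).const_mul q)).fun_add
    ((((h2.const_mul p).fun_add (h3.const_mul q)).const_mul 2).mul_const (Real.cosh (√3 / 2 * y)))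
  have e : Ux p q x y = p * (Real.exp (-x) * (-1)) + q * Real.exp x +
    2 * (p * (Real.exp (x / 2) * (1 / 2)) + q * (Real.exp (-(x / 2)) * (-(1 / 2)))) *
      Real.cosh (√3 / 2 * y) := by unfold Ux; ring
  rw [e]; exact h

lemma Ux_x (p q x y : ℝ) : HasDerivAt (fun s => Ux p q s y) (Uxx p q x y) x := by
  have h1 : HasDerivAt (fun s : ℝ => Real.exp (-s)) (Real.exp (-x) * (-1)) x := (hasDerivAt_neg x).exp
  have h2 : HasDerivAt (fun s : ℝ => Real.exp (s / 2)) (Real.exp (x / 2) * (1 / 2)) x :=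
    ((hasDerivAt_id' x).div_const 2).exp
  have h3 : HasDerivAt (fun s : ℝ => Real.exp (-(s / 2))) (Real.exp (-(x / 2)) * (-(1 / 2))) x :=
    (((hasDerivAt_id' x).div_const 2).fun_neg).exp
  have h := (((h1.const_mul p).fun_neg).fun_add ((Real.hasDerivAt_exp x).const_mul q)).fun_add
    ((((h2.const_mul p).fun_sub (h3.const_mul q))).mul_const (Real.cosh (√3 / 2 * y)))
  have e : Uxx p q x y = -(p * (Real.exp (-x) * (-1))) + q * Real.exp x +
    (p * (Real.exp (x / 2) * (1 / 2)) - q * (Real.exp (-(x / 2)) * (-(1 / 2)))) *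
      Real.cosh (√3 / 2 * y) := by unfold Uxx; ring
  rw [e]; exact h

lemma U_y (p q x y : ℝ) : HasDerivAt (fun s => U p q x s) (Uy p q x y) y := by
  have h1 : HasDerivAt (fun s : ℝ => Real.cosh (√3 / 2 * s))
      (Real.sinh (√3 / 2 * y) * (√3 / 2 * 1)) y :=
    ((hasDerivAt_id' y).const_mul (√3 / 2)).cosh
  have h := (h1.const_mul (2 * (p * Real.exp (x / 2) + q * Real.exp (-(x / 2))))).const_add
    (p * Real.exp (-x) + q * Real.exp x)
  have e : Uy p q x y = 2 * (p * Real.exp (x / 2) + q * Real.exp (-(x / 2))) *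
    (Real.sinh (√3 / 2 * y) * (√3 / 2 * 1)) := by unfold Uy; ring
  rw [e]; exact h

lemma Uy_y (p q x y : ℝ) : HasDerivAt (fun s => Uy p q x s) (Uyy p q x y) y := by
  have h1 : HasDerivAt (fun s : ℝ => Real.sinh (√3 / 2 * s))
      (Real.cosh (√3 / 2 * y) * (√3 / 2 * 1)) y :=
    ((hasDerivAt_id' y).const_mul (√3 / 2)).sinh
  have h := (h1.const_mul (√3 * (p * Real.exp (x / 2) + q * Real.exp (-(x / 2)))))
  have h33 : √3 * √3 = 3 := Real.mul_self_sqrt (by norm_num)
  have e : Uyy p q x y = √3 * (p * Real.exp (x / 2) + q * Real.exp (-(x / 2))) *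
    (Real.cosh (√3 / 2 * y) * (√3 / 2 * 1)) := by
    unfold Uyy
    linear_combination (-(1/2) * (p * Real.exp (x / 2) + q * Real.exp (-(x / 2))) *
      Real.cosh (√3 / 2 * y)) * h33
  rw [e]; exact h

/-- A function of the two frame coordinates. -/
def fr (O n e : Plane) (κ : ℝ) (F : ℝ → ℝ → ℝ) (P : Plane) : ℝ :=
  F (κ * lc O n P) (κ * lc O e P)

lemma fr_contDiff (O n e : Plane) (κ : ℝ) {F : ℝ → ℝ → ℝ} {m : WithTop ℕ∞}
    (hF : ContDiff ℝ m (fun w : ℝ × ℝ => F w.1 w.2)) : ContDiff ℝ m (fr O n e κ F) := by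
  have h1 : ContDiff ℝ m (fun P : Plane => (κ * lc O n P, κ * lc O e P)) :=
    (contDiff_const.mul (lc_contDiff O n)).prodMk (contDiff_const.mul (lc_contDiff O e))
  exact hF.comp h1

lemma lc_add (O n x v : Plane) (t : ℝ) :
    lc O n (x + t • v) = lc O n x + t * (v 0 * n 0 + v 1 * n 1) := by
  unfold lc
  simp only [PiLp.add_apply, PiLp.smul_apply, smul_eq_mul]
  ring

lemma fr_n {O n e : Plane} {κ : ℝ} {F : ℝ → ℝ → ℝ} {F' : ℝ} {x : Plane}
    (nn : n 0 ^ 2 + n 1 ^ 2 = 1) (ne : n 0 * e 0 + n 1 * e 1 = 0)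
    (hd : DifferentiableAt ℝ (fr O n e κ F) x)
    (h : HasDerivAt (fun s => F s (κ * lc O e x)) F' (κ * lc O n x)) :
    fderiv ℝ (fr O n e κ F) x n = κ * F' := by
  have h1 := hd.hasFDerivAt.hasLineDerivAt n
  have h2 : HasDerivAt (fun t : ℝ => fr O n e κ F (x + t • n)) (F' * κ) 0 := by
    have e1 : (fun t : ℝ => fr O n e κ F (x + t • n)) =
        fun t : ℝ => F (κ * lc O n x + κ * t) (κ * lc O e x) := by
      funext t
      unfold fr
      rw [lc_add, lc_add]
      congr 1
      · rw [show n 0 * n 0 + n 1 * n 1 = 1 by linarith]; ring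
      · rw [ne]; ring
    rw [e1]
    have h3 : HasDerivAt (fun t : ℝ => κ * lc O n x + κ * t) κ 0 := by
      have := ((hasDerivAt_id' (0:ℝ)).const_mul κ).const_add (κ * lc O n x)
      rw [mul_one] at this
      exact this
    have h4 : HasDerivAt (fun s => F s (κ * lc O e x)) F' (κ * lc O n x + κ * 0) := by
      rw [mul_zero, add_zero]; exact h
    exact h4.comp (0:ℝ) h3
  have := h1.unique h2
  rw [this]; ring

lemma fr_e {O n e : Plane} {κ : ℝ} {F : ℝ → ℝ → ℝ} {F' : ℝ} {x : Plane}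
    (ee : e 0 ^ 2 + e 1 ^ 2 = 1) (ne : n 0 * e 0 + n 1 * e 1 = 0)
    (hd : DifferentiableAt ℝ (fr O n e κ F) x)
    (h : HasDerivAt (fun s => F (κ * lc O n x) s) F' (κ * lc O e x)) :
    fderiv ℝ (fr O n e κ F) x e = κ * F' := by
  have h1 := hd.hasFDerivAt.hasLineDerivAt e
  have h2 : HasDerivAt (fun t : ℝ => fr O n e κ F (x + t • e)) (F' * κ) 0 := by
    have e1 : (fun t : ℝ => fr O n e κ F (x + t • e)) =
        fun t : ℝ => F (κ * lc O n x) (κ * lc O e x + κ * t) := by
      funext t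
      unfold fr
      rw [lc_add, lc_add]
      congr 1
      · rw [show e 0 * n 0 + e 1 * n 1 = 0 by linarith]; ring
      · rw [show e 0 * e 0 + e 1 * e 1 = 1 by linarith]; ring
    rw [e1]
    have h3 : HasDerivAt (fun t : ℝ => κ * lc O e x + κ * t) κ 0 := by
      have := ((hasDerivAt_id' (0:ℝ)).const_mul κ).const_add (κ * lc O e x)
      rw [mul_one] at this
      exact this
    have h4 : HasDerivAt (fun s => F (κ * lc O n x) s) F' (κ * lc O e x + κ * 0) := by
      rw [mul_zero, add_zero]; exact h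
    exact h4.comp (0:ℝ) h3
  have := h1.unique h2
  rw [this]; ring

/-- energy density of the model function -/
noncomputable def Hd (p q x y : ℝ) : ℝ :=
  Ux p q x y ^ 2 + Uy p q x y ^ 2 + U p q x y ^ 2

namespace Cell

variable {O B C n e : Plane} {r y z : ℝ} (hc : Cell O B C n e r y z)
include hc

lemma lc_n_OB (t : ℝ) : lc O n (AffineMap.lineMap O B t) = r * t := by
  simp only [lc, AffineMap.lineMap_apply, vsub_eq_sub, vadd_eq_add, PiLp.add_apply,
    PiLp.smul_apply, PiLp.sub_apply, smul_eq_mul, hc.hB 0, hc.hB 1]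
  linear_combination (r * t) * hc.nn - (y * t) * hc.ne

lemma lc_e_OB (t : ℝ) : lc O e (AffineMap.lineMap O B t) = -(y * t) := by
  simp only [lc, AffineMap.lineMap_apply, vsub_eq_sub, vadd_eq_add, PiLp.add_apply,
    PiLp.smul_apply, PiLp.sub_apply, smul_eq_mul, hc.hB 0, hc.hB 1]
  linear_combination (r * t) * hc.ne - (y * t) * hc.ee

lemma lc_n_OC (t : ℝ) : lc O n (AffineMap.lineMap O C t) = r * t := by
  simp only [lc, AffineMap.lineMap_apply, vsub_eq_sub, vadd_eq_add, PiLp.add_apply,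
    PiLp.smul_apply, PiLp.sub_apply, smul_eq_mul, hc.hC 0, hc.hC 1]
  linear_combination (r * t) * hc.nn + (z * t) * hc.ne

lemma lc_e_OC (t : ℝ) : lc O e (AffineMap.lineMap O C t) = z * t := by
  simp only [lc, AffineMap.lineMap_apply, vsub_eq_sub, vadd_eq_add, PiLp.add_apply,
    PiLp.smul_apply, PiLp.sub_apply, smul_eq_mul, hc.hC 0, hc.hC 1]
  linear_combination (r * t) * hc.ne + (z * t) * hc.ee

lemma lc_n_BC (t : ℝ) : lc O n (AffineMap.lineMap B C t) = r := by
  simp only [lc, AffineMap.lineMap_apply, vsub_eq_sub, vadd_eq_add, PiLp.add_apply,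
    PiLp.smul_apply, PiLp.sub_apply, smul_eq_mul, hc.hC 0, hc.hC 1, hc.hB 0, hc.hB 1]
  linear_combination r * hc.nn + (t * (z + y) - y) * hc.ne

lemma fderiv_norm_sq (κ p q : ℝ) (x : Plane) :
    ‖fderiv ℝ (fr O n e κ (U p q)) x‖ ^ 2 + κ ^ 2 * (fr O n e κ (U p q) x) ^ 2 =
      κ ^ 2 * fr O n e κ (Hd p q) x := by
  have hd : DifferentiableAt ℝ (fr O n e κ (U p q)) x :=
    ((fr_contDiff O n e κ (U_contDiff p q (m := 1))).differentiable (by norm_num)) x
  rw [clm_norm_sq _ hc.nn hc.ee hc.ne, fr_n hc.nn hc.ne hd (U_x _ _ _ _),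
    fr_e hc.ee hc.ne hd (U_y _ _ _ _)]
  unfold fr Hd
  ring

lemma div_pt (κ p q : ℝ) (x : Plane) :
    fderiv ℝ (fr O n e κ (fun a b => κ * (U p q a b * Ux p q a b))) x n +
      fderiv ℝ (fr O n e κ (fun a b => κ * (U p q a b * Uy p q a b))) x e =
      κ ^ 2 * fr O n e κ (Hd p q) x := by
  have c1 : ContDiff ℝ 1 (fr O n e κ (fun a b => κ * (U p q a b * Ux p q a b))) :=
    fr_contDiff O n e κ (contDiff_const.mul ((U_contDiff p q).mul (Ux_contDiff p q)))
  have c2 : ContDiff ℝ 1 (fr O n e κ (fun a b => κ * (U p q a b * Uy p q a b))) :=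
    fr_contDiff O n e κ (contDiff_const.mul ((U_contDiff p q).mul (Uy_contDiff p q)))
  rw [fr_n hc.nn hc.ne (c1.differentiable (by norm_num) x)
      (((U_x _ _ _ _).fun_mul (Ux_x _ _ _ _)).const_mul κ),
    fr_e hc.ee hc.ne (c2.differentiable (by norm_num) x)
      (((U_y _ _ _ _).fun_mul (Uy_y _ _ _ _)).const_mul κ)]
  have := Uxx_add_Uyy p q (κ * lc O n x) (κ * lc O e x)
  unfold fr Hd
  linear_combination κ ^ 2 * U p q (κ * lc O n x) (κ * lc O e x) * this

end Cell

lemma U_even (p q x y : ℝ) : U p q x (-y) = U p q x y := by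
  unfold U; rw [mul_neg, Real.cosh_neg]

lemma Ux_even (p q x y : ℝ) : Ux p q x (-y) = Ux p q x y := by
  unfold Ux; rw [mul_neg, Real.cosh_neg]

lemma Uy_odd (p q x y : ℝ) : Uy p q x (-y) = -Uy p q x y := by
  unfold Uy; rw [mul_neg, Real.sinh_neg]; ring

/-- the comparison integral -/
noncomputable def KK (p q κ r : ℝ) : ℝ :=
  κ * r * ∫ t in (0:ℝ)..1, EE p q (κ * (r * t)) * U p q (κ * (r * t)) (κ * (r * t) * √3)

lemma EE_continuous (p q : ℝ) : Continuous (EE p q) := by
  unfold EE; fun_prop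

lemma KK_cont (p q κ r : ℝ) : Continuous fun t : ℝ =>
    EE p q (κ * (r * t)) * U p q (κ * (r * t)) (κ * (r * t) * √3) := by
  have h1 := (U_contDiff p q (m := 1)).continuous
  have h2 : Continuous fun t : ℝ => U p q (κ * (r * t)) (κ * (r * t) * √3) :=
    h1.comp (by fun_prop : Continuous fun t : ℝ => (κ * (r * t), κ * (r * t) * √3))
  exact ((EE_continuous p q).comp (by fun_prop)).mul h2

lemma KK_nonneg {τ R p q κ r : ℝ} (P : Par τ R p q) (hκ : 0 < κ) (hr : 0 < r)
    (hR : κ * r ≤ R) : 0 ≤ KK p q κ r := by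
  unfold KK
  apply mul_nonneg (by positivity)
  apply intervalIntegral.integral_nonneg zero_le_one
  intro t ht
  have h1 : 0 ≤ κ * (r * t) := mul_nonneg hκ.le (mul_nonneg hr.le ht.1)
  have h2 : κ * (r * t) ≤ R := by
    refine le_trans ?_ hR
    rw [← mul_assoc]
    exact mul_le_of_le_one_right (by positivity) ht.2
  exact mul_nonneg (EE_nonneg h1 P.q_pos.le (P.q_exp_le h2)) (U_pos P.p_pos P.q_pos.le).le

lemma Cell.integral_le {O B C n e : Plane} {r y z : ℝ} (hc : Cell O B C n e r y z)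
    {τ R p q κ : ℝ} (P : Par τ R p q) (hκ : 0 < κ) (hR : κ * r ≤ R) :
    ∫ x in tri O B C, κ ^ 2 * fr O n e κ (Hd p q) x ≤
      κ * τ * ((y + z) * ∫ t in (0:ℝ)..1, (fr O n e κ (U p q) (AffineMap.lineMap B C t)) ^ 2) -
        ((y + z) / (2 * r) - √3) * KK p q κ r := by
  have hr := hc.hr
  have hy := hc.hy
  have hz := hc.hz
  have h3 : (0:ℝ) < √3 := Real.sqrt_pos.2 (by norm_num)
  have h33 : √3 * √3 = 3 := Real.mul_self_sqrt (by norm_num)
  have c1 : ContDiff ℝ 1 (fr O n e κ (fun a b => κ * (U p q a b * Ux p q a b))) :=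
    fr_contDiff O n e κ (contDiff_const.mul ((U_contDiff p q).mul (Ux_contDiff p q)))
  have c2 : ContDiff ℝ 1 (fr O n e κ (fun a b => κ * (U p q a b * Uy p q a b))) :=
    fr_contDiff O n e κ (contDiff_const.mul ((U_contDiff p q).mul (Uy_contDiff p q)))
  have c0 : ContDiff ℝ 1 (fr O n e κ (U p q)) := fr_contDiff O n e κ (U_contDiff p q)
  obtain ⟨K1, l1⟩ := tri_lip (A := O) (B := B) (C := C) c1.locallyLipschitz
  obtain ⟨K2, l2⟩ := tri_lip (A := O) (B := B) (C := C) c2.locallyLipschitz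
  have hdiv := hc.div_thm l1 l2
  simp only [hc.div_pt κ p q] at hdiv
  rw [hdiv]
  have hline : ∀ P Q : Plane, Continuous fun t : ℝ => (AffineMap.lineMap P Q t : Plane) := by
    intro P Q; fun_prop
  -- side term
  have s1 : ∫ t in (0:ℝ)..1, fr O n e κ (fun a b => κ * (U p q a b * Ux p q a b))
      (AffineMap.lineMap B C t) ≤
      ∫ t in (0:ℝ)..1, κ * τ * (fr O n e κ (U p q) (AffineMap.lineMap B C t)) ^ 2 := by
    apply intervalIntegral.integral_mono_on zero_le_one
    · exact (c1.continuous.comp (hline B C)).intervalIntegrable _ _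
    · exact (((c0.continuous.comp (hline B C)).pow 2).const_mul _).intervalIntegrable _ _
    · intro t ht
      unfold fr
      rw [hc.lc_n_BC]
      have hb := P.bc_le hR (κ * lc O e (AffineMap.lineMap B C t))
      have hu := U_pos (x := κ * r) (y := κ * lc O e (AffineMap.lineMap B C t)) P.p_pos P.q_pos.le
      have := mul_le_mul_of_nonneg_left hb (mul_pos hκ hu).le
      linarith
  -- inner edges
  have hKc := KK_cont p q κ r
  have s2 : ∫ t in (0:ℝ)..1, (r * fr O n e κ (fun a b => κ * (U p q a b * Uy p q a b))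
        (AffineMap.lineMap O C t) - z * fr O n e κ (fun a b => κ * (U p q a b * Ux p q a b))
        (AffineMap.lineMap O C t)) ≤
      ∫ t in (0:ℝ)..1, (-(z / 2 - r * (√3 / 2)) * κ) *
        (EE p q (κ * (r * t)) * U p q (κ * (r * t)) (κ * (r * t) * √3)) := by
    apply intervalIntegral.integral_mono_on zero_le_one
    · exact (((c2.continuous.comp (hline O C)).const_mul r).sub
        ((c1.continuous.comp (hline O C)).const_mul z)).intervalIntegrable _ _
    · exact (hKc.const_mul _).intervalIntegrable _ _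
    · intro t ht
      unfold fr
      rw [hc.lc_n_OC, hc.lc_e_OC]
      have h1 : 0 ≤ κ * (r * t) := mul_nonneg hκ.le (mul_nonneg hr.le ht.1)
      have h2 : κ * (r * t) ≤ R := by
        refine le_trans ?_ hR
        rw [← mul_assoc]
        exact mul_le_of_le_one_right (by positivity) ht.2
      have hk := key_point h1 (show 0 ≤ z / r by positivity) P.q_pos.le P.p_pos
        (P.q_exp_le h2)
      have e1 : κ * (r * t) * (z / r) = κ * (z * t) := by field_simp
      rw [e1] at hk
      have hk2 := mul_le_mul_of_nonneg_left hk (mul_pos hκ hr).le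
      have e2 : κ * r * (U p q (κ * (r * t)) (κ * (z * t)) *
          (Uy p q (κ * (r * t)) (κ * (z * t)) - z / r * Ux p q (κ * (r * t)) (κ * (z * t)))) =
          r * (κ * (U p q (κ * (r * t)) (κ * (z * t)) * Uy p q (κ * (r * t)) (κ * (z * t)))) -
          z * (κ * (U p q (κ * (r * t)) (κ * (z * t)) * Ux p q (κ * (r * t)) (κ * (z * t)))) := by
        field_simp
      have e3 : κ * r * -((√3 * (z / r) - 3) / (2 * √3) *
          (EE p q (κ * (r * t)) * U p q (κ * (r * t)) (κ * (r * t) * √3))) =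
          (-(z / 2 - r * (√3 / 2)) * κ) *
        (EE p q (κ * (r * t)) * U p q (κ * (r * t)) (κ * (r * t) * √3)) := by
        have : (√3 * (z / r) - 3) / (2 * √3) = (z / 2 - r * (√3 / 2)) / r := by
          field_simp
          linear_combination r * h33
        rw [this]; field_simp
      rw [e2, e3] at hk2
      exact hk2
  have s3 : ∫ t in (0:ℝ)..1, ((y / 2 - r * (√3 / 2)) * κ) *
        (EE p q (κ * (r * t)) * U p q (κ * (r * t)) (κ * (r * t) * √3)) ≤
      ∫ t in (0:ℝ)..1, (r * fr O n e κ (fun a b => κ * (U p q a b * Uy p q a b))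
        (AffineMap.lineMap O B t) + y * fr O n e κ (fun a b => κ * (U p q a b * Ux p q a b))
        (AffineMap.lineMap O B t)) := by
    apply intervalIntegral.integral_mono_on zero_le_one
    · exact (hKc.const_mul _).intervalIntegrable _ _
    · exact (((c2.continuous.comp (hline O B)).const_mul r).add
        ((c1.continuous.comp (hline O B)).const_mul y)).intervalIntegrable _ _
    · intro t ht
      unfold fr
      rw [hc.lc_n_OB, hc.lc_e_OB, mul_neg]
      beta_reduce
      rw [U_even, Ux_even, Uy_odd]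
      have h1 : 0 ≤ κ * (r * t) := mul_nonneg hκ.le (mul_nonneg hr.le ht.1)
      have h2 : κ * (r * t) ≤ R := by
        refine le_trans ?_ hR
        rw [← mul_assoc]
        exact mul_le_of_le_one_right (by positivity) ht.2
      have hk := key_point h1 (show 0 ≤ y / r by positivity) P.q_pos.le P.p_pos
        (P.q_exp_le h2)
      have e1 : κ * (r * t) * (y / r) = κ * (y * t) := by field_simp
      rw [e1] at hk
      have hk2 := mul_le_mul_of_nonneg_left hk (mul_pos hκ hr).le
      have e2 : κ * r * (U p q (κ * (r * t)) (κ * (y * t)) *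
          (Uy p q (κ * (r * t)) (κ * (y * t)) - y / r * Ux p q (κ * (r * t)) (κ * (y * t)))) =
          -(r * (κ * (U p q (κ * (r * t)) (κ * (y * t)) * -Uy p q (κ * (r * t)) (κ * (y * t)))) +
          y * (κ * (U p q (κ * (r * t)) (κ * (y * t)) * Ux p q (κ * (r * t)) (κ * (y * t))))) := by
        field_simp
        ring
      have e3 : κ * r * -((√3 * (y / r) - 3) / (2 * √3) *
          (EE p q (κ * (r * t)) * U p q (κ * (r * t)) (κ * (r * t) * √3))) =
          -(((y / 2 - r * (√3 / 2)) * κ) *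
        (EE p q (κ * (r * t)) * U p q (κ * (r * t)) (κ * (r * t) * √3))) := by
        have : (√3 * (y / r) - 3) / (2 * √3) = (y / 2 - r * (√3 / 2)) / r := by
          field_simp
          linear_combination r * h33
        rw [this]; field_simp
      rw [e2, e3] at hk2
      linarith
  rw [intervalIntegral.integral_const_mul] at s1 s2 s3
  have s1' := mul_le_mul_of_nonneg_left s1 (show 0 ≤ y + z by positivity)
  have eK : ((y + z) / (2 * r) - √3) * KK p q κ r = -(-(z / 2 - r * (√3 / 2)) * κ) *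
      (∫ t in (0:ℝ)..1, (EE p q (κ * (r * t)) * U p q (κ * (r * t)) (κ * (r * t) * √3))) +
      ((y / 2 - r * (√3 / 2)) * κ) *
      (∫ t in (0:ℝ)..1, (EE p q (κ * (r * t)) * U p q (κ * (r * t)) (κ * (r * t) * √3))) := by
    unfold KK
    field_simp
    ring
  rw [eK]
  linarith

end Pool.Agent.Robin
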