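import Mathlib
import Pool.Agent.Robin.Upper

set_option autoImplicit false

open MeasureTheory Set

namespace Pool.Agent.Robin

/-- maximum of the three normal coordinates -/
noncomputable def mm (O n₁ n₂ n₃ P : Plane) : ℝ := max (lc O n₁ P) (max (lc O n₂ P) (lc O n₃ P))

/-- distance to a ray -/
noncomputable def gg (O n P : Plane) : ℝ := ‖(P - O) - (max (lc O n P) 0) • n‖

/-- minimum of the three distances -/
noncomputable def yy (O n₁ n₂ n₃ P : Plane) : ℝ := min (gg O n₁ P) (min (gg O n₂ P) (gg O n₃ P))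

/-- the test function -/
noncomputable def tf (O n₁ n₂ n₃ : Plane) (p q κ : ℝ) (P : Plane) : ℝ :=
  U p q (κ * mm O n₁ n₂ n₃ P) (κ * yy O n₁ n₂ n₃ P)

lemma lc_ll (O n : Plane) : LocallyLipschitz (lc O n) :=
  (lc_contDiff O n (m := 1)).locallyLipschitz

lemma mm_ll (O n₁ n₂ n₃ : Plane) : LocallyLipschitz (mm O n₁ n₂ n₃) :=
  (lc_ll O n₁).max ((lc_ll O n₂).max (lc_ll O n₃))

lemma gg_ll (O n : Plane) : LocallyLipschitz (gg O n) := by
  have h1 : LocallyLipschitz (fun P : Plane => (P, max (lc O n P) 0)) :=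
    LocallyLipschitz.id.prodMk ((lc_ll O n).max (LocallyLipschitz.const 0))
  have h2 : ContDiff ℝ 1 (fun w : Plane × ℝ => (w.1 - O) - w.2 • n) := by fun_prop
  have h3 := h2.locallyLipschitz.comp h1
  have h4 : LocallyLipschitz (fun v : Plane => ‖v‖) := lipschitzWith_one_norm.locallyLipschitz
  exact h4.comp h3

lemma yy_ll (O n₁ n₂ n₃ : Plane) : LocallyLipschitz (yy O n₁ n₂ n₃) :=
  (gg_ll O n₁).min ((gg_ll O n₂).min (gg_ll O n₃))

lemma tf_ll (O n₁ n₂ n₃ : Plane) (p q κ : ℝ) : LocallyLipschitz (tf O n₁ n₂ n₃ p q κ) := by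
  have h1 := (mm_ll O n₁ n₂ n₃).prodMk (yy_ll O n₁ n₂ n₃)
  have h2 : ContDiff ℝ 1 (fun w : ℝ × ℝ => (κ * w.1, κ * w.2)) := by fun_prop
  have h3 : ContDiff ℝ 1 (fun w : ℝ × ℝ => U p q (κ * w.1) (κ * w.2)) :=
    (U_contDiff p q (m := 1)).comp h2
  exact h3.locallyLipschitz.comp h1

lemma gg_sq {O n : Plane} (nn : n 0 ^ 2 + n 1 ^ 2 = 1) (P : Plane) :
    gg O n P ^ 2 = dt (P - O) (P - O) - (max (lc O n P) 0) ^ 2 := by
  unfold gg
  rw [norm_sq_dt]
  have h1 : max (lc O n P) 0 * (max (lc O n P) 0 - lc O n P) = 0 := by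
    rcases le_total (lc O n P) 0 with h | h
    · rw [max_eq_right h]; ring
    · rw [max_eq_left h]; ring
  set c := max (lc O n P) 0 with hc
  clear_value c
  unfold lc at h1
  unfold dt
  simp only [PiLp.sub_apply, PiLp.smul_apply, smul_eq_mul]
  linear_combination c ^ 2 * nn + 2 * h1

lemma pyth {O n e : Plane} (nn : n 0 ^ 2 + n 1 ^ 2 = 1) (ee : e 0 ^ 2 + e 1 ^ 2 = 1)
    (ne : n 0 * e 0 + n 1 * e 1 = 0) (P : Plane) :
    dt (P - O) (P - O) = lc O n P ^ 2 + lc O e P ^ 2 := by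
  have hd : (n 0 * e 1 - n 1 * e 0) ^ 2 = 1 := by
    linear_combination nn + (n 0 ^ 2 + n 1 ^ 2) * ee - (n 0 * e 0 + n 1 * e 1) * ne
  have e0 : e 0 = -(n 1 * (n 0 * e 1 - n 1 * e 0)) := by
    linear_combination (-e 0) * nn + n 0 * ne
  have e1 : e 1 = n 0 * (n 0 * e 1 - n 1 * e 0) := by
    linear_combination (-e 1) * nn + n 1 * ne
  unfold dt lc
  simp only [PiLp.sub_apply]
  set d := n 0 * e 1 - n 1 * e 0 with hdd
  clear_value d
  rw [e0, e1]
  set a := P 0 - O 0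
  set b := P 1 - O 1
  linear_combination (-(a ^ 2 + b ^ 2)) * nn -
    ((a * n 1) ^ 2 + (b * n 0) ^ 2 - 2 * (a * n 1) * (b * n 0)) * hd

lemma tf_eq {O n₁ e₁ n₂ n₃ : Plane} {p q κ : ℝ} {P : Plane}
    (nn : n₁ 0 ^ 2 + n₁ 1 ^ 2 = 1) (ee : e₁ 0 ^ 2 + e₁ 1 ^ 2 = 1)
    (ne : n₁ 0 * e₁ 0 + n₁ 1 * e₁ 1 = 0)
    (nn2 : n₂ 0 ^ 2 + n₂ 1 ^ 2 = 1) (nn3 : n₃ 0 ^ 2 + n₃ 1 ^ 2 = 1)
    (h0 : 0 ≤ lc O n₁ P) (h2 : lc O n₂ P ≤ lc O n₁ P) (h3 : lc O n₃ P ≤ lc O n₁ P) :
    tf O n₁ n₂ n₃ p q κ P = fr O n₁ e₁ κ (U p q) P := by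
  have hm : mm O n₁ n₂ n₃ P = lc O n₁ P := by
    unfold mm; exact max_eq_left (max_le h2 h3)
  have g1 : gg O n₁ P = |lc O e₁ P| := by
    have h := gg_sq (O := O) nn P
    rw [pyth nn ee ne, max_eq_left h0] at h
    have : gg O n₁ P ^ 2 = |lc O e₁ P| ^ 2 := by rw [sq_abs]; linarith
    exact (pow_left_inj₀ (norm_nonneg _) (abs_nonneg _) (by norm_num)).1 this
  have gi : ∀ n : Plane, n 0 ^ 2 + n 1 ^ 2 = 1 → lc O n P ≤ lc O n₁ P →
      |lc O e₁ P| ≤ gg O n P := by
    intro n hn hle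
    have h := gg_sq (O := O) hn P
    rw [pyth nn ee ne] at h
    have h5 : (max (lc O n P) 0) ^ 2 ≤ lc O n₁ P ^ 2 :=
      pow_le_pow_left₀ (le_max_right _ _) (max_le hle h0) 2
    have : |lc O e₁ P| ^ 2 ≤ gg O n P ^ 2 := by rw [sq_abs]; linarith
    exact (pow_le_pow_iff_left₀ (abs_nonneg _) (norm_nonneg _) (by norm_num)).1 this
  have hy : yy O n₁ n₂ n₃ P = |lc O e₁ P| := by
    unfold yy
    rw [g1]
    exact min_eq_left (le_min (gi n₂ nn2 h2) (gi n₃ nn3 h3))
  unfold tf fr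
  rw [hm, hy]
  rcases le_total 0 (lc O e₁ P) with h | h
  · rw [abs_of_nonneg h]
  · rw [abs_of_nonpos h, mul_neg, U_even]

lemma tf_rot (O n₁ n₂ n₃ : Plane) (p q κ : ℝ) :
    tf O n₂ n₃ n₁ p q κ = tf O n₁ n₂ n₃ p q κ := by
  funext P
  unfold tf mm yy
  congr 2
  · rw [← max_assoc, max_comm]
  · rw [← min_assoc, min_comm]

/-- In the cell `O B C`, the first normal coordinate dominates. -/
lemma cell_dom {O A B C n₁ e₁ n₂ e₂ n₃ e₃ : Plane} {x y z r : ℝ}
    (c1 : Cell O B C n₁ e₁ r y z) (c2 : Cell O C A n₂ e₂ r z x) (c3 : Cell O A B n₃ e₃ r x y)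
    (hO : ∀ i, 2 * (x + y + z) * O i = (y + z) * A i + (z + x) * B i + (x + y) * C i)
    {P : Plane} (hP : P ∈ tri O B C) :
    0 ≤ lc O n₁ P ∧ lc O n₂ P ≤ lc O n₁ P ∧ lc O n₃ P ≤ lc O n₁ P := by
  rw [tri_eq] at hP
  obtain ⟨⟨β, γ⟩, ⟨hβ, hγ, hβγ⟩, rfl⟩ := hP
  simp only at hβ hγ hβγ
  have hr := c1.hr
  have hx := c2.hz
  have hy := c1.hy
  have hz := c1.hz
  have hlin : ∀ n : Plane, lc O n (Phi O B C (β, γ)) = β * lc O n B + γ * lc O n C := by
    intro n
    simp only [lc, Phi, PiLp.add_apply, PiLp.smul_apply, PiLp.sub_apply, smul_eq_mul]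
    ring
  have b1 : lc O n₁ B = r := by
    simp only [lc, c1.hB 0, c1.hB 1]
    linear_combination r * c1.nn - y * c1.ne
  have b2 : lc O n₁ C = r := by
    simp only [lc, c1.hC 0, c1.hC 1]
    linear_combination r * c1.nn + z * c1.ne
  have b3 : lc O n₂ C = r := by
    simp only [lc, c2.hB 0, c2.hB 1]
    linear_combination r * c2.nn - z * c2.ne
  have b4 : lc O n₂ A = r := by
    simp only [lc, c2.hC 0, c2.hC 1]
    linear_combination r * c2.nn + x * c2.ne
  have b5 : lc O n₃ A = r := by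
    simp only [lc, c3.hB 0, c3.hB 1]
    linear_combination r * c3.nn - x * c3.ne
  have b6 : lc O n₃ B = r := by
    simp only [lc, c3.hC 0, c3.hC 1]
    linear_combination r * c3.nn + y * c3.ne
  have hrel : ∀ n : Plane, (y + z) * lc O n A + (z + x) * lc O n B + (x + y) * lc O n C = 0 := by
    intro n
    unfold lc
    have h0 := hO 0
    have h1 := hO 1
    linear_combination (-n 0) * h0 - n 1 * h1
  have b7 : lc O n₂ B ≤ 0 := by
    have h := hrel n₂
    rw [b4, b3] at h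
    have : (z + x) * lc O n₂ B = -((y + z) * r + (x + y) * r) := by linarith
    by_contra hcon
    push Not at hcon
    have h1 : 0 < (z + x) * lc O n₂ B := mul_pos (by positivity) hcon
    have h2 : 0 < (y + z) * r + (x + y) * r := by positivity
    linarith
  have b8 : lc O n₃ C ≤ 0 := by
    have h := hrel n₃
    rw [b5, b6] at h
    have : (x + y) * lc O n₃ C = -((y + z) * r + (z + x) * r) := by linarith
    by_contra hcon
    push Not at hcon
    have h1 : 0 < (x + y) * lc O n₃ C := mul_pos (by positivity) hcon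
    have h2 : 0 < (y + z) * r + (z + x) * r := by positivity
    linarith
  rw [hlin, hlin, hlin, b1, b2, b3, b6]
  have h1 : 0 ≤ β * r := by positivity
  have h2 : 0 ≤ γ * r := by positivity
  refine ⟨by positivity, ?_, ?_⟩
  · have := mul_nonpos_of_nonneg_of_nonpos hβ b7
    linarith
  · have := mul_nonpos_of_nonneg_of_nonpos hγ b8
    linarith

lemma interior_ae (A B C : Plane) :
    ∀ᵐ x ∂(volume : Measure Plane), x ∈ tri A B C → x ∈ interior (tri A B C) := by
  have h0 : ∀ᵐ x ∂(volume : Measure Plane), x ∉ frontier (tri A B C) := by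
    rw [← measure_eq_zero_iff_ae_notMem]
    exact (tri_convex A B C).addHaar_frontier _
  filter_upwards [h0] with x hx hxT
  by_contra hni
  apply hx
  rw [(tri_compact A B C).isClosed.frontier_eq]
  exact ⟨hxT, hni⟩

/-- The energy density of the test function on a cell. -/
lemma cell_energy {O B C n e : Plane} {r y z : ℝ} (hc : Cell O B C n e r y z)
    {p q κ : ℝ} {u : Plane → ℝ} (hu : EqOn u (fr O n e κ (U p q)) (tri O B C)) :
    (fun x => ‖fderiv ℝ u x‖ ^ 2 + κ ^ 2 * u x ^ 2) =ᵐ[volume.restrict (tri O B C)]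
      fun x => κ ^ 2 * fr O n e κ (Hd p q) x := by
  rw [Filter.EventuallyEq, ae_restrict_iff' (tri_meas O B C)]
  filter_upwards [interior_ae O B C] with x hx hxT
  have heq : u =ᶠ[nhds x] fr O n e κ (U p q) := by
    filter_upwards [mem_interior_iff_mem_nhds.1 (hx hxT)] with w hw using hu hw
  rw [heq.fderiv_eq, hu hxT, hc.fderiv_norm_sq]

lemma Hd_cont (O n e : Plane) (p q κ : ℝ) :
    Continuous fun x => κ ^ 2 * fr O n e κ (Hd p q) x := by
  have h : ContDiff ℝ 1 (fr O n e κ (Hd p q)) := by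
    apply fr_contDiff
    unfold Hd
    exact (((Ux_contDiff p q).pow 2).add ((Uy_contDiff p q).pow 2)).add
      ((U_contDiff p q).pow 2)
  exact h.continuous.const_mul _

lemma tri_cover {A B C O : Plane} {x y z : ℝ} (hx : 0 < x) (hy : 0 < y) (hz : 0 < z)
    (hO : ∀ i, 2 * (x + y + z) * O i = (y + z) * A i + (z + x) * B i + (x + y) * C i) :
    tri A B C ⊆ tri O B C ∪ (tri O C A ∪ tri O A B) := by
  intro P hP
  rw [tri_eq] at hP
  obtain ⟨⟨μ, ν⟩, ⟨hμ, hν, hμν⟩, rfl⟩ := hP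
  simp only at hμ hν hμν
  set lam := 1 - μ - ν with hlam
  have hlam0 : 0 ≤ lam := by rw [hlam]; linarith
  have hyz : 0 < y + z := by positivity
  have hzx : 0 < z + x := by positivity
  have hxy : 0 < x + y := by positivity
  have hP : ∀ (t : ℝ) (i : Fin 2), (Phi A B C (μ, ν)) i = O i + ((lam - t * (y + z)) * (A i - O i) +
      (μ - t * (z + x)) * (B i - O i) + (ν - t * (x + y)) * (C i - O i)) := by
    intro t i
    simp only [Phi, PiLp.add_apply, PiLp.smul_apply, PiLp.sub_apply, smul_eq_mul]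
    rw [hlam]
    linear_combination (-t) * hO i
  have hsum : ∀ t : ℝ, 0 ≤ t → (lam - t * (y + z)) + (μ - t * (z + x)) + (ν - t * (x + y)) ≤ 1 := by
    intro t ht
    have : 0 ≤ t * (2 * (x + y + z)) := by positivity
    rw [hlam]
    linarith
  have mk : ∀ (Q R' : Plane) (b c : ℝ), 0 ≤ b → 0 ≤ c → b + c ≤ 1 →
      (∀ i, (Phi A B C (μ, ν)) i = O i + (b * (Q i - O i) + c * (R' i - O i))) →
      Phi A B C (μ, ν) ∈ tri O Q R' := by
    intro Q R' b c hb hc hbc h
    rw [tri_eq]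
    refine ⟨(b, c), ⟨hb, hc, hbc⟩, ?_⟩
    ext i
    rw [h i]
    simp only [Phi, PiLp.add_apply, PiLp.smul_apply, PiLp.sub_apply, smul_eq_mul]
  have ta : lam / (y + z) * (y + z) = lam := by field_simp
  have tb : μ / (z + x) * (z + x) = μ := by field_simp
  have tc : ν / (x + y) * (x + y) = ν := by field_simp
  have ha0 : 0 ≤ lam / (y + z) := by positivity
  have hb0 : 0 ≤ μ / (z + x) := by positivity
  have hc0 : 0 ≤ ν / (x + y) := by positivity
  by_cases h1 : lam / (y + z) ≤ μ / (z + x) ∧ lam / (y + z) ≤ ν / (x + y)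
  · left
    have i1 := mul_le_mul_of_nonneg_right h1.1 hzx.le
    have i2 := mul_le_mul_of_nonneg_right h1.2 hxy.le
    have hs := hsum _ ha0
    apply mk B C (μ - lam / (y + z) * (z + x)) (ν - lam / (y + z) * (x + y)) (by linarith)
      (by linarith) (by linarith)
    intro i
    rw [hP (lam / (y + z)) i, ta]; ring
  · right
    by_cases h2 : μ / (z + x) ≤ lam / (y + z) ∧ μ / (z + x) ≤ ν / (x + y)
    · left
      have i1 := mul_le_mul_of_nonneg_right h2.1 hyz.le
      have i2 := mul_le_mul_of_nonneg_right h2.2 hxy.le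
      have hs := hsum _ hb0
      apply mk C A (ν - μ / (z + x) * (x + y)) (lam - μ / (z + x) * (y + z)) (by linarith)
        (by linarith) (by linarith)
      intro i
      rw [hP (μ / (z + x)) i, tb]; ring
    · right
      have h3 : ν / (x + y) ≤ lam / (y + z) ∧ ν / (x + y) ≤ μ / (z + x) := by
        by_contra h3
        rw [not_and_or, not_le, not_le] at h1 h2 h3
        rcases h1 with h1 | h1 <;> rcases h2 with h2 | h2 <;> rcases h3 with h3 | h3 <;> linarith
      have i1 := mul_le_mul_of_nonneg_right h3.1 hyz.le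
      have i2 := mul_le_mul_of_nonneg_right h3.2 hzx.le
      have hs := hsum _ hc0
      apply mk A B (lam - ν / (x + y) * (y + z)) (μ - ν / (x + y) * (z + x)) (by linarith)
        (by linarith) (by linarith)
      intro i
      rw [hP (ν / (x + y)) i, tc]; ring

end Pool.Agent.Robin
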