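import Mathlib
import Pool.Agent.Robin.Test

set_option autoImplicit false

open MeasureTheory Set

namespace Pool.Agent.Robin

lemma amgm3 {x y z : ℝ} (hx : 0 < x) (hy : 0 < y) (hz : 0 < z) :
    27 * (x * y * z) ≤ (x + y + z) ^ 3 := by
  nlinarith [mul_nonneg hx.le (sq_nonneg (y - z)), mul_nonneg hy.le (sq_nonneg (z - x)),
    mul_nonneg hz.le (sq_nonneg (x - y)), mul_nonneg hx.le (sq_nonneg (x - y)),
    mul_nonneg hx.le (sq_nonneg (x - z)), mul_nonneg hy.le (sq_nonneg (y - x)),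
    mul_nonneg hy.le (sq_nonneg (y - z)), mul_nonneg hz.le (sq_nonneg (z - x)),
    mul_nonneg hz.le (sq_nonneg (z - y))]

lemma semi_ge {x y z r : ℝ} (hx : 0 < x) (hy : 0 < y) (hz : 0 < z) (hr : 0 < r)
    (hrs : r ^ 2 * (x + y + z) = x * y * z) : 3 * √3 * r ≤ x + y + z := by
  have h1 := amgm3 hx hy hz
  rw [← hrs] at h1
  have hs : 0 < x + y + z := by positivity
  have h2 : 27 * r ^ 2 ≤ (x + y + z) ^ 2 := by
    have : 27 * r ^ 2 * (x + y + z) ≤ (x + y + z) ^ 2 * (x + y + z) := by linarith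
    exact le_of_mul_le_mul_right this hs
  have h33 : √3 ^ 2 = 3 := Real.sq_sqrt (by norm_num)
  have h3 : (3 * √3 * r) ^ 2 ≤ (x + y + z) ^ 2 := by
    rw [mul_pow, mul_pow, h33]; linarith
  exact (pow_le_pow_iff_left₀ (by positivity) hs.le (by norm_num)).1 h3

lemma lip_cont_int {A B C : Plane} {u : Plane → ℝ} {K : NNReal}
    (hu : LipschitzOnWith K u (tri A B C)) :
    IntegrableOn (fun x => u x ^ 2) (tri A B C) := by
  exact (hu.continuousOn.pow 2).integrableOn_compact (tri_compact A B C)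

/-- The upper bound: a test function on an arbitrary triangle. -/
theorem upper_bound {A B C O n₁ e₁ n₂ e₂ n₃ e₃ : Plane} {x y z r : ℝ}
    (hI : Inc A B C O n₁ e₁ n₂ e₂ n₃ e₃ x y z r) {τ R p q κ : ℝ} (P : Par τ R p q)
    (hκ : 0 < κ) (hR : κ * r ≤ R) :
    ∃ u : Plane → ℝ, LocallyLipschitz u ∧ (∀ x, 0 < u x) ∧
      (∫ x in tri A B C, ‖fderiv ℝ u x‖ ^ 2) + κ ^ 2 * (∫ x in tri A B C, u x ^ 2) ≤
        κ * τ * bdInt (fun x => u x ^ 2) A B C := by
  obtain ⟨c1, c2, c3, hrs, hJ, hO⟩ := hI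
  have hx := c2.hz
  have hy := c1.hy
  have hz := c1.hz
  have hr := c1.hr
  set u := tf O n₁ n₂ n₃ p q κ with hu
  have hull : LocallyLipschitz u := tf_ll O n₁ n₂ n₃ p q κ
  have hupos : ∀ x, 0 < u x := fun x => by rw [hu]; exact U_pos P.p_pos P.q_pos.le
  have hO2 : ∀ i, 2 * (y + z + x) * O i = (z + x) * B i + (x + y) * C i + (y + z) * A i :=
    fun i => by linear_combination hO i
  have hO3 : ∀ i, 2 * (z + x + y) * O i = (x + y) * C i + (y + z) * A i + (z + x) * B i :=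
    fun i => by linear_combination hO i
  have q1 : EqOn u (fr O n₁ e₁ κ (U p q)) (tri O B C) := by
    intro w hw
    obtain ⟨h1, h2, h3⟩ := cell_dom c1 c2 c3 hO hw
    exact tf_eq c1.nn c1.ee c1.ne c2.nn c3.nn h1 h2 h3
  have q2 : EqOn u (fr O n₂ e₂ κ (U p q)) (tri O C A) := by
    intro w hw
    obtain ⟨h1, h2, h3⟩ := cell_dom c2 c3 c1 hO2 hw
    rw [hu, ← tf_rot]
    exact tf_eq c2.nn c2.ee c2.ne c3.nn c1.nn h1 h2 h3
  have q3 : EqOn u (fr O n₃ e₃ κ (U p q)) (tri O A B) := by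
    intro w hw
    obtain ⟨h1, h2, h3⟩ := cell_dom c3 c1 c2 hO3 hw
    rw [hu, ← tf_rot, ← tf_rot]
    exact tf_eq c3.nn c3.ee c3.ne c1.nn c2.nn h1 h2 h3
  refine ⟨u, hull, hupos, ?_⟩
  have E1 := cell_energy c1 q1
  have E2 := cell_energy c2 q2
  have E3 := cell_energy c3 q3
  have I1 : IntegrableOn (fun x => ‖fderiv ℝ u x‖ ^ 2 + κ ^ 2 * u x ^ 2) (tri O B C) :=
    ((Hd_cont O n₁ e₁ p q κ).continuousOn.integrableOn_compact (tri_compact O B C)).congr E1.symm
  have I2 : IntegrableOn (fun x => ‖fderiv ℝ u x‖ ^ 2 + κ ^ 2 * u x ^ 2) (tri O C A) :=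
    ((Hd_cont O n₂ e₂ p q κ).continuousOn.integrableOn_compact (tri_compact O C A)).congr E2.symm
  have I3 : IntegrableOn (fun x => ‖fderiv ℝ u x‖ ^ 2 + κ ^ 2 * u x ^ 2) (tri O A B) :=
    ((Hd_cont O n₃ e₃ p q κ).continuousOn.integrableOn_compact (tri_compact O A B)).congr E3.symm
  have L1 := c1.integral_le P hκ hR
  have L2 := c2.integral_le P hκ hR
  have L3 := c3.integral_le P hκ hR
  rw [← integral_congr_ae E1] at L1
  rw [← integral_congr_ae E2] at L2
  rw [← integral_congr_ae E3] at L3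
  -- total integral
  have hle : volume.restrict (tri A B C) ≤ volume.restrict (tri O B C) +
      (volume.restrict (tri O C A) + volume.restrict (tri O A B)) :=
    (Measure.restrict_mono (tri_cover hx hy hz hO) le_rfl).trans
      ((Measure.restrict_union_le _ _).trans (by gcongr; exact Measure.restrict_union_le _ _))
  have I23 : Integrable (fun x => ‖fderiv ℝ u x‖ ^ 2 + κ ^ 2 * u x ^ 2)
      (volume.restrict (tri O C A) + volume.restrict (tri O A B)) :=
    Integrable.add_measure I2 I3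
  have I123 := Integrable.add_measure I1 I23
  have hnn : ∀ x, 0 ≤ ‖fderiv ℝ u x‖ ^ 2 + κ ^ 2 * u x ^ 2 := fun x => by positivity
  have htot := integral_mono_measure hle (Filter.Eventually.of_forall hnn) I123
  rw [integral_add_measure I1 I23, integral_add_measure I2 I3] at htot
  have IT : IntegrableOn (fun x => ‖fderiv ℝ u x‖ ^ 2 + κ ^ 2 * u x ^ 2) (tri A B C) :=
    I123.mono_measure hle
  obtain ⟨K, hK⟩ := tri_lip (A := A) (B := B) (C := C) hull
  have IU := lip_cont_int hK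
  have hsplit : ∫ x in tri A B C, (‖fderiv ℝ u x‖ ^ 2 + κ ^ 2 * u x ^ 2) =
      (∫ x in tri A B C, ‖fderiv ℝ u x‖ ^ 2) + κ ^ 2 * (∫ x in tri A B C, u x ^ 2) := by
    have IG : IntegrableOn (fun x => ‖fderiv ℝ u x‖ ^ 2) (tri A B C) := by
      have := IT.sub (IU.const_mul (κ ^ 2))
      refine this.congr (Filter.Eventually.of_forall fun x => ?_)
      simp
    rw [integral_add IG (IU.const_mul _), integral_const_mul]
  rw [← hsplit]
  -- boundary terms
  have B1 : segInt (fun x => u x ^ 2) B C = (y + z) *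
      ∫ t in (0:ℝ)..1, (fr O n₁ e₁ κ (U p q) (AffineMap.lineMap B C t)) ^ 2 := by
    unfold segInt
    rw [c1.dist_BC]
    congr 1
    apply intervalIntegral.integral_congr
    intro t ht
    rw [uIcc_of_le zero_le_one] at ht
    simp only
    rw [q1 (lineMap_mem_tri (mem_tri_B O B C) (mem_tri_C O B C) ht)]
  have B2 : segInt (fun x => u x ^ 2) C A = (z + x) *
      ∫ t in (0:ℝ)..1, (fr O n₂ e₂ κ (U p q) (AffineMap.lineMap C A t)) ^ 2 := by
    unfold segInt
    rw [c2.dist_BC]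
    congr 1
    apply intervalIntegral.integral_congr
    intro t ht
    rw [uIcc_of_le zero_le_one] at ht
    simp only
    rw [q2 (lineMap_mem_tri (mem_tri_B O C A) (mem_tri_C O C A) ht)]
  have B3 : segInt (fun x => u x ^ 2) A B = (x + y) *
      ∫ t in (0:ℝ)..1, (fr O n₃ e₃ κ (U p q) (AffineMap.lineMap A B t)) ^ 2 := by
    unfold segInt
    rw [c3.dist_BC]
    congr 1
    apply intervalIntegral.integral_congr
    intro t ht
    rw [uIcc_of_le zero_le_one] at ht
    simp only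
    rw [q3 (lineMap_mem_tri (mem_tri_B O A B) (mem_tri_C O A B) ht)]
  have hbd : bdInt (fun x => u x ^ 2) A B C = segInt (fun x => u x ^ 2) A B +
    segInt (fun x => u x ^ 2) B C + segInt (fun x => u x ^ 2) C A := rfl
  rw [hbd, B1, B2, B3]
  have hs := semi_ge hx hy hz hr hrs
  have hK0 := KK_nonneg P hκ hr hR
  have hcoef : 0 ≤ ((y + z) / (2 * r) - √3) + ((z + x) / (2 * r) - √3) +
      ((x + y) / (2 * r) - √3) := by
    have : ((y + z) / (2 * r) - √3) + ((z + x) / (2 * r) - √3) +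
      ((x + y) / (2 * r) - √3) = ((x + y + z) - 3 * √3 * r) / r := by
      field_simp; ring
    rw [this]
    apply div_nonneg (by linarith) hr.le
  have hfin := mul_nonneg hcoef hK0
  linarith

end Pool.Agent.Robin
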