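import Mathlib
import Pool.Agent.Robin.UpperFin

set_option autoImplicit false

open MeasureTheory Set

namespace Pool.Agent.Robin

/-- Coordinates of an equilateral triangle of inradius `ρ`. -/
structure Equi (A B C : Plane) (ρ u v σ : ℝ) : Prop where
  hρ : 0 < ρ
  hu : u ^ 2 + v ^ 2 = 12 * ρ ^ 2
  hσ : σ ^ 2 = 3 / 4
  B0 : B 0 = A 0 + u
  B1 : B 1 = A 1 + v
  C0 : C 0 = A 0 + (u / 2 - σ * v)
  C1 : C 1 = A 1 + (v / 2 + σ * u)

/-- the outward unit normal of the side `BC` -/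
noncomputable def nrm (A B C : Plane) (ρ : ℝ) : Plane := (1 / (6 * ρ)) • (B + C - (2 : ℝ) • A)

/-- the centre -/
noncomputable def cen (A B C : Plane) : Plane := (1 / 3 : ℝ) • (A + B + C)

lemma cen_perm (A B C : Plane) : cen B C A = cen A B C := by
  unfold cen; congr 1; abel

lemma nrm_apply (A B C : Plane) (ρ : ℝ) (i : Fin 2) :
    nrm A B C ρ i = (1 / (6 * ρ)) * (B i + C i - 2 * A i) := by
  simp [nrm]

lemma cen_apply (A B C : Plane) (i : Fin 2) : cen A B C i = (1 / 3) * (A i + B i + C i) := by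
  simp only [cen, PiLp.add_apply, PiLp.smul_apply, smul_eq_mul]

namespace Equi

variable {A B C : Plane} {ρ u v σ : ℝ} (h : Equi A B C ρ u v σ)
include h

lemma rot : Equi B C A ρ (-(u / 2) - σ * v) (-(v / 2) + σ * u) σ := by
  refine ⟨h.hρ, ?_, h.hσ, ?_, ?_, ?_, ?_⟩
  · linear_combination (1 / 4 + σ ^ 2) * h.hu + 12 * ρ ^ 2 * h.hσ
  · rw [h.C0, h.B0]; ring
  · rw [h.C1, h.B1]; ring
  · rw [h.B0]; linear_combination u * h.hσ
  · rw [h.B1]; linear_combination v * h.hσ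

lemma n1 : (C 0 - B 0) * nrm A B C ρ 0 + (C 1 - B 1) * nrm A B C ρ 1 = 0 := by
  have hρ := h.hρ
  rw [nrm_apply, nrm_apply, h.B0, h.B1, h.C0, h.C1]
  field_simp
  linear_combination 4 * (u ^ 2 + v ^ 2) * h.hσ

lemma n2 : (C 0 - B 0) * nrm B C A ρ 0 + (C 1 - B 1) * nrm B C A ρ 1 = 3 * ρ := by
  have hρ := h.hρ
  rw [nrm_apply, nrm_apply, h.B0, h.B1, h.C0, h.C1]
  field_simp
  linear_combination 6 * h.hu + 4 * (u ^ 2 + v ^ 2) * h.hσ

lemma n3 : (C 0 - B 0) * nrm C A B ρ 0 + (C 1 - B 1) * nrm C A B ρ 1 = -(3 * ρ) := by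
  have hρ := h.hρ
  rw [nrm_apply, nrm_apply, h.B0, h.B1, h.C0, h.C1]
  field_simp
  linear_combination (-3) * h.hu - 4 * (u ^ 2 + v ^ 2) * h.hσ

lemma lcBC (t : ℝ) : lc (cen A B C) (nrm A B C ρ) (AffineMap.lineMap B C t) = ρ := by
  have hρ := h.hρ
  simp only [lc, AffineMap.lineMap_apply, vsub_eq_sub, vadd_eq_add, PiLp.add_apply,
    PiLp.smul_apply, PiLp.sub_apply, smul_eq_mul, nrm_apply, cen_apply]
  rw [h.B0, h.B1, h.C0, h.C1]
  field_simp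
  linear_combination 6 * h.hu + (12 * t - 4) * (u ^ 2 + v ^ 2) * h.hσ

lemma J_eq : J A B C = 12 * σ * ρ ^ 2 := by
  unfold J
  rw [h.B0, h.B1, h.C0, h.C1]
  linear_combination σ * h.hu

lemma J_abs : |J A B C| = 6 * √3 * ρ ^ 2 := by
  have h33 : √3 ^ 2 = 3 := Real.sq_sqrt (by norm_num)
  have h1 : |J A B C| ^ 2 = (6 * √3 * ρ ^ 2) ^ 2 := by
    rw [sq_abs, h.J_eq]
    linear_combination (144 * ρ ^ 4) * h.hσ - 36 * ρ ^ 4 * h33
  exact (pow_left_inj₀ (abs_nonneg _) (by positivity) (by norm_num)).1 h1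

lemma J_ne : J A B C ≠ 0 := by
  have h1 := h.J_abs
  have hρ := h.hρ
  intro h0
  rw [h0, abs_zero] at h1
  have : 0 < 6 * √3 * ρ ^ 2 := by positivity
  linarith

lemma dist_AB : dist A B = 2 * √3 * ρ := by
  have hρ := h.hρ
  have h33 : √3 ^ 2 = 3 := Real.sq_sqrt (by norm_num)
  have h1 : dist A B ^ 2 = (2 * √3 * ρ) ^ 2 := by
    rw [dist_sq, h.B0, h.B1]
    linear_combination h.hu - 4 * ρ ^ 2 * h33
  exact (pow_left_inj₀ dist_nonneg (by positivity) (by norm_num)).1 h1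

lemma norm_sum (L : Plane →L[ℝ] ℝ) :
    (L (C - B)) ^ 2 + (L (A - C)) ^ 2 + (L (B - A)) ^ 2 = 18 * ρ ^ 2 * ‖L‖ ^ 2 := by
  set w := (InnerProductSpace.toDual ℝ Plane).symm L with hw
  have hL : ∀ v, L v = w 0 * v 0 + w 1 * v 1 := by
    intro v
    have h1 : inner ℝ w v = L v := InnerProductSpace.toDual_symm_apply
    rw [← h1, PiLp.inner_apply, Fin.sum_univ_two]
    simp only [RCLike.inner_apply, conj_trivial]
    ring
  have hn : ‖L‖ = ‖w‖ := by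
    rw [hw, LinearIsometryEquiv.norm_map]
  rw [hn, norm_sq_dt, hL, hL, hL]
  unfold dt
  simp only [PiLp.sub_apply]
  rw [h.B0, h.B1, h.C0, h.C1]
  linear_combination (3 / 2 * (w 0 ^ 2 + w 1 ^ 2)) * h.hu +
    2 * (w 0 * v - w 1 * u) ^ 2 * h.hσ

end Equi

lemma cen_sum (A B C : Plane) (ρ : ℝ) (O P : Plane) :
    lc O (nrm A B C ρ) P + lc O (nrm B C A ρ) P + lc O (nrm C A B ρ) P = 0 := by
  simp only [lc, nrm_apply]; ring

/-- The ground state of the equilateral triangle. -/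
noncomputable def WW (p q κ : ℝ) (O n₁ n₂ n₃ P : Plane) : ℝ :=
  om p q (κ * lc O n₁ P) + om p q (κ * lc O n₂ P) + om p q (κ * lc O n₃ P)

/-- The components of the logarithmic gradient of the ground state. -/
noncomputable def wv (p q κ c : ℝ) (O n₁ n₂ n₃ P : Plane) : ℝ :=
  c * (om' p q (κ * lc O n₂ P) - om' p q (κ * lc O n₃ P)) / WW p q κ O n₁ n₂ n₃ P

lemma WW_rot (p q κ : ℝ) (O n₁ n₂ n₃ P : Plane) :
    WW p q κ O n₂ n₃ n₁ P = WW p q κ O n₁ n₂ n₃ P := by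
  unfold WW; ring

lemma WW_pos {p q : ℝ} (hp : 0 < p) (hq : 0 < q) (κ : ℝ) (O n₁ n₂ n₃ P : Plane) :
    0 < WW p q κ O n₁ n₂ n₃ P := by
  unfold WW
  have := om_pos hp hq (κ * lc O n₁ P)
  have := om_pos hp hq (κ * lc O n₂ P)
  have := om_pos hp hq (κ * lc O n₃ P)
  positivity

lemma om_contDiff (p q : ℝ) : ContDiff ℝ 1 (om p q) := by
  unfold om; fun_prop

lemma om'_contDiff (p q : ℝ) : ContDiff ℝ 1 (om' p q) := by
  unfold om'; fun_prop

lemma WW_contDiff (p q κ : ℝ) (O n₁ n₂ n₃ : Plane) : ContDiff ℝ 1 (WW p q κ O n₁ n₂ n₃) := by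
  unfold WW
  have h : ∀ n, ContDiff ℝ 1 (fun P => om p q (κ * lc O n P)) := fun n =>
    (om_contDiff p q).comp (contDiff_const.mul (lc_contDiff O n))
  exact ((h n₁).add (h n₂)).add (h n₃)

lemma wv_contDiff {p q : ℝ} (hp : 0 < p) (hq : 0 < q) (κ c : ℝ) (O n₁ n₂ n₃ : Plane) :
    ContDiff ℝ 1 (wv p q κ c O n₁ n₂ n₃) := by
  unfold wv
  have h : ∀ n, ContDiff ℝ 1 (fun P => om' p q (κ * lc O n P)) := fun n =>
    (om'_contDiff p q).comp (contDiff_const.mul (lc_contDiff O n))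
  exact (contDiff_const.mul ((h n₂).sub (h n₃))).div (WW_contDiff p q κ O n₁ n₂ n₃)
    (fun P => (WW_pos hp hq κ O n₁ n₂ n₃ P).ne')

lemma fi_ll {p q : ℝ} (hp : 0 < p) (hq : 0 < q) (κ c : ℝ) (O n₁ n₂ n₃ : Plane)
    {g : Plane → ℝ} (hg : LocallyLipschitz g) :
    LocallyLipschitz (fun P => g P ^ 2 * wv p q κ c O n₁ n₂ n₃ P) := by
  have h1 := hg.prodMk (wv_contDiff hp hq κ c O n₁ n₂ n₃).locallyLipschitz
  have h2 : ContDiff ℝ 1 (fun w : ℝ × ℝ => w.1 ^ 2 * w.2) := by fun_prop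
  exact h2.locallyLipschitz.comp h1

lemma lower_dir {p q : ℝ} (hp : 0 < p) (hq : 0 < q) {κ c : ℝ} {O n₁ n₂ n₃ b : Plane} {ρ : ℝ}
    (h1 : b 0 * n₁ 0 + b 1 * n₁ 1 = 0) (h2 : b 0 * n₂ 0 + b 1 * n₂ 1 = 3 * ρ)
    (h3 : b 0 * n₃ 0 + b 1 * n₃ 1 = -(3 * ρ)) (hc : c = 3 * κ * ρ)
    {g : Plane → ℝ} {x : Plane} (hg : DifferentiableAt ℝ g x) :
    fderiv ℝ (fun P => g P ^ 2 * wv p q κ c O n₁ n₂ n₃ P) x b ≤
      (fderiv ℝ g x b) ^ 2 + g x ^ 2 * (c ^ 2 *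
        (om p q (κ * lc O n₂ x) + om p q (κ * lc O n₃ x)) / WW p q κ O n₁ n₂ n₃ x) := by
  have hW := WW_pos hp hq κ O n₁ n₂ n₃ x
  have hwd : DifferentiableAt ℝ (wv p q κ c O n₁ n₂ n₃) x :=
    (wv_contDiff hp hq κ c O n₁ n₂ n₃).differentiable (by norm_num) x
  -- directional derivative of wv
  have hline := hwd.hasFDerivAt.hasLineDerivAt b
  have hlin : ∀ (n : Plane) (d : ℝ), b 0 * n 0 + b 1 * n 1 = d →
      (fun t : ℝ => κ * lc O n (x + t • b)) = fun t : ℝ => κ * lc O n x + κ * d * t := by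
    intro n d hd
    funext t
    rw [lc_add, hd]; ring
  have hlinD : ∀ (n : Plane) (d : ℝ), b 0 * n 0 + b 1 * n 1 = d →
      HasDerivAt (fun t : ℝ => κ * lc O n (x + t • b)) (κ * d) 0 := by
    intro n d hd
    rw [hlin n d hd]
    have := ((hasDerivAt_id' (0:ℝ)).const_mul (κ * d)).const_add (κ * lc O n x)
    rw [mul_one] at this
    exact this
  have e0 : ∀ n : Plane, κ * lc O n (x + (0:ℝ) • b) = κ * lc O n x := by
    intro n; rw [zero_smul, add_zero]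
  have omD : ∀ (n : Plane) (d : ℝ), b 0 * n 0 + b 1 * n 1 = d →
      HasDerivAt (fun t : ℝ => om p q (κ * lc O n (x + t • b)))
        (om' p q (κ * lc O n x) * (κ * d)) 0 := by
    intro n d hd
    have k := om_hasDerivAt p q (κ * lc O n (x + (0:ℝ) • b))
    have := k.comp (0:ℝ) (hlinD n d hd)
    rw [e0] at this
    exact this
  have omD' : ∀ (n : Plane) (d : ℝ), b 0 * n 0 + b 1 * n 1 = d →
      HasDerivAt (fun t : ℝ => om' p q (κ * lc O n (x + t • b)))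
        (om p q (κ * lc O n x) * (κ * d)) 0 := by
    intro n d hd
    have k := om'_hasDerivAt p q (κ * lc O n (x + (0:ℝ) • b))
    have := k.comp (0:ℝ) (hlinD n d hd)
    rw [e0] at this
    exact this
  have hWD : HasDerivAt (fun t : ℝ => WW p q κ O n₁ n₂ n₃ (x + t • b))
      (om' p q (κ * lc O n₁ x) * (κ * 0) + om' p q (κ * lc O n₂ x) * (κ * (3 * ρ)) +
        om' p q (κ * lc O n₃ x) * (κ * (-(3 * ρ)))) 0 :=
    ((omD n₁ 0 h1).fun_add (omD n₂ _ h2)).fun_add (omD n₃ _ h3)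
  have hND : HasDerivAt (fun t : ℝ => c * (om' p q (κ * lc O n₂ (x + t • b)) -
      om' p q (κ * lc O n₃ (x + t • b))))
      (c * (om p q (κ * lc O n₂ x) * (κ * (3 * ρ)) -
        om p q (κ * lc O n₃ x) * (κ * (-(3 * ρ))))) 0 :=
    ((omD' n₂ _ h2).fun_sub (omD' n₃ _ h3)).const_mul c
  have hx0 : x + (0:ℝ) • b = x := by rw [zero_smul, add_zero]
  have hwD := hND.fun_div hWD (by rw [hx0]; exact hW.ne')
  have huniq := hline.unique hwD
  simp only [hx0] at huniq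
  have hwval : fderiv ℝ (wv p q κ c O n₁ n₂ n₃) x b =
      c ^ 2 * (om p q (κ * lc O n₂ x) + om p q (κ * lc O n₃ x)) / WW p q κ O n₁ n₂ n₃ x -
        (wv p q κ c O n₁ n₂ n₃ x) ^ 2 := by
    rw [huniq]
    unfold wv
    rw [hc]
    field_simp
    ring
  -- product rule
  have hprod : fderiv ℝ (fun P => g P ^ 2 * wv p q κ c O n₁ n₂ n₃ P) x b =
      2 * g x * fderiv ℝ g x b * wv p q κ c O n₁ n₂ n₃ x +
        g x ^ 2 * fderiv ℝ (wv p q κ c O n₁ n₂ n₃) x b := by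
    have k1 : HasFDerivAt (fun P => g P ^ 2) _ x := hg.hasFDerivAt.pow 2
    have k2 := k1.mul hwd.hasFDerivAt
    have k3 : (fun P => g P ^ 2 * wv p q κ c O n₁ n₂ n₃ P) =
      (fun P => g P ^ 2) * wv p q κ c O n₁ n₂ n₃ := rfl
    rw [k3, k2.fderiv]
    simp
    ring
  rw [hprod, hwval]
  nlinarith [sq_nonneg (fderiv ℝ g x b - g x * wv p q κ c O n₁ n₂ n₃ x)]

end Pool.Agent.Robin
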