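import Mathlib
import Pool.Agent.Robin.Lower

set_option autoImplicit false

open MeasureTheory Set

namespace Pool.Agent.Robin

lemma edge_val {A B C : Plane} {ρ u v σ : ℝ} (h : Equi A B C ρ u v σ) {τ p q κ c : ℝ}
    (P : Par τ (κ * ρ) p q) (t : ℝ) :
    wv p q κ c (cen A B C) (nrm C A B ρ) (nrm A B C ρ) (nrm B C A ρ) (AffineMap.lineMap B C t) -
      wv p q κ c (cen A B C) (nrm B C A ρ) (nrm C A B ρ) (nrm A B C ρ)
        (AffineMap.lineMap B C t) = 2 * τ * c := by
  have hX := h.lcBC t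
  have hs := cen_sum A B C ρ (cen A B C) (AffineMap.lineMap B C t)
  rw [hX] at hs
  have hbc := P.om_bc (α := κ * lc (cen A B C) (nrm B C A ρ) (AffineMap.lineMap B C t))
    (β := κ * lc (cen A B C) (nrm C A B ρ) (AffineMap.lineMap B C t))
    (by linear_combination κ * hs)
  have hW := WW_pos P.p_pos P.q_pos κ (cen A B C) (nrm A B C ρ) (nrm B C A ρ) (nrm C A B ρ)
    (AffineMap.lineMap B C t)
  have w2 := WW_rot p q κ (cen A B C) (nrm A B C ρ) (nrm B C A ρ) (nrm C A B ρ)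
    (AffineMap.lineMap B C t)
  have w3 := (WW_rot p q κ (cen A B C) (nrm B C A ρ) (nrm C A B ρ) (nrm A B C ρ)
    (AffineMap.lineMap B C t)).trans w2
  unfold wv
  rw [w2, w3, div_sub_div_same, div_eq_iff hW.ne']
  unfold WW
  rw [hX]
  linear_combination c * hbc

/-- The flux components. -/
noncomputable def FF (g : Plane → ℝ) (p q κ c : ℝ) (O n₁ n₂ n₃ P : Plane) : ℝ :=
  g P ^ 2 * wv p q κ c O n₁ n₂ n₃ P

lemma F_edge {A B C : Plane} {ρ u v σ : ℝ} (h : Equi A B C ρ u v σ) {τ p q κ c : ℝ}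
    (P : Par τ (κ * ρ) p q) {f g : Plane → ℝ} (hfg : EqOn f g (tri A B C))
    (hg : Continuous g) :
    (∫ t in (0:ℝ)..1, FF g p q κ c (cen A B C) (nrm C A B ρ) (nrm A B C ρ)
        (nrm B C A ρ) (AffineMap.lineMap B C t)) -
      (∫ t in (0:ℝ)..1, FF g p q κ c (cen A B C) (nrm B C A ρ) (nrm C A B ρ)
        (nrm A B C ρ) (AffineMap.lineMap B C t)) =
      2 * τ * c * ∫ t in (0:ℝ)..1, f (AffineMap.lineMap B C t) ^ 2 := by
  have hline : Continuous fun t : ℝ => (AffineMap.lineMap B C t : Plane) := by fun_prop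
  have h1 := (wv_contDiff P.p_pos P.q_pos κ c (cen A B C) (nrm C A B ρ) (nrm A B C ρ)
    (nrm B C A ρ)).continuous
  have h2 := (wv_contDiff P.p_pos P.q_pos κ c (cen A B C) (nrm B C A ρ) (nrm C A B ρ)
    (nrm A B C ρ)).continuous
  rw [← intervalIntegral.integral_sub, ← intervalIntegral.integral_const_mul]
  · apply intervalIntegral.integral_congr
    intro t ht
    rw [uIcc_of_le zero_le_one] at ht
    have := edge_val h (c := c) P t
    simp only [FF]
    rw [hfg (lineMap_mem_tri (mem_tri_B A B C) (mem_tri_C A B C) ht), ← this]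
    ring
  · exact (((hg.pow 2).mul h1).comp hline).intervalIntegrable _ _
  · exact (((hg.pow 2).mul h2).comp hline).intervalIntegrable _ _

theorem lower_bound {A B C : Plane} {ρ u v σ : ℝ} (h : Equi A B C ρ u v σ) {τ p q κ : ℝ}
    (P : Par τ (κ * ρ) p q) {f : Plane → ℝ} {K : NNReal}
    (hf : LipschitzOnWith K f (tri A B C)) :
    κ * τ * bdInt (fun x => f x ^ 2) A B C ≤
      (∫ x in tri A B C, ‖fderiv ℝ f x‖ ^ 2) + κ ^ 2 * ∫ x in tri A B C, f x ^ 2 := by
  obtain ⟨g, hg, hfg, hae⟩ := tri_extend hf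
  have hρ := h.hρ
  have hp := P.p_pos
  have hq := P.q_pos
  have h' := h.rot
  have h'' := h'.rot
  have hc1 : cen B C A = cen A B C := cen_perm A B C
  have hc2 : cen C A B = cen A B C := (cen_perm B C A).trans hc1
  have ht1 : tri B C A = tri A B C := tri_perm A B C
  have ht2 : tri C A B = tri A B C := (tri_perm B C A).trans ht1
  have hj1 : J B C A = J A B C := J_perm A B C
  have hj2 : J C A B = J A B C := (J_perm B C A).trans hj1
  set c := 3 * κ * ρ with hc
  set O := cen A B C with hO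
  set n₁ := nrm A B C ρ with hn1
  set n₂ := nrm B C A ρ with hn2
  set n₃ := nrm C A B ρ with hn3
  have hgl := hg.locallyLipschitz
  obtain ⟨K1, l1⟩ := tri_lip (A := A) (B := B) (C := C) (f := FF g p q κ c O n₁ n₂ n₃)
    (fi_ll hp hq κ c O n₁ n₂ n₃ hgl)
  obtain ⟨K2, l2⟩ := tri_lip (A := A) (B := B) (C := C) (f := FF g p q κ c O n₂ n₃ n₁)
    (fi_ll hp hq κ c O n₂ n₃ n₁ hgl)
  obtain ⟨K3, l3⟩ := tri_lip (A := A) (B := B) (C := C) (f := FF g p q κ c O n₃ n₁ n₂)
    (fi_ll hp hq κ c O n₃ n₁ n₂ hgl)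
  have hJ := h.J_ne
  have T1 := tri_ftc (A := B) (B := C) (C := A) (by rw [hj1]; exact hJ)
    (f := FF g p q κ c O n₁ n₂ n₃) (K := K1) (by rw [ht1]; exact l1)
  have T2 := tri_ftc (A := C) (B := A) (C := B) (by rw [hj2]; exact hJ)
    (f := FF g p q κ c O n₂ n₃ n₁) (K := K2) (by rw [ht2]; exact l2)
  have T3 := tri_ftc hJ l3
  rw [ht1, hj1, edge_symm (FF g p q κ c O n₁ n₂ n₃) A B] at T1
  rw [ht2, hj2, edge_symm (FF g p q κ c O n₂ n₃ n₁) B C] at T2
  rw [edge_symm (FF g p q κ c O n₃ n₁ n₂) C A] at T3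
  have i1 := integrableOn_fderiv l1 (C - B)
  have i2 := integrableOn_fderiv l2 (A - C)
  have i3 := integrableOn_fderiv l3 (B - A)
  -- integrability
  have hTfin := (tri_compact A B C).measure_lt_top (μ := (volume : Measure Plane)).ne
  have ig : IntegrableOn (fun x => ‖fderiv ℝ g x‖ ^ 2) (tri A B C) := by
    refine Measure.integrableOn_of_bounded (M := (K:ℝ) ^ 2) hTfin
      ((measurable_fderiv ℝ g).norm.pow_const 2).aestronglyMeasurable
      (Filter.Eventually.of_forall fun x => ?_)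
    rw [Real.norm_of_nonneg (by positivity)]
    exact pow_le_pow_left₀ (norm_nonneg _) (norm_fderiv_le_of_lipschitz ℝ hg) 2
  have ig2 : IntegrableOn (fun x => g x ^ 2) (tri A B C) :=
    (hg.continuous.pow 2).continuousOn.integrableOn_compact (tri_compact A B C)
  -- pointwise inequality
  have hpt : ∫ x in tri A B C, (fderiv ℝ (FF g p q κ c O n₁ n₂ n₃) x (C - B) +
      fderiv ℝ (FF g p q κ c O n₂ n₃ n₁) x (A - C) +
      fderiv ℝ (FF g p q κ c O n₃ n₁ n₂) x (B - A)) ≤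
      ∫ x in tri A B C, (18 * ρ ^ 2 * (‖fderiv ℝ g x‖ ^ 2 + κ ^ 2 * g x ^ 2)) := by
    apply integral_mono_ae
    · exact (i1.add i2).add i3
    · exact (ig.add (ig2.const_mul _)).const_mul _
    · filter_upwards [ae_restrict_of_ae hg.ae_differentiableAt] with x hx
      have d1 := lower_dir (κ := κ) (c := c) (O := O) hp hq (b := C - B) h.n1 h.n2 h.n3 hc hx
      have d2 := lower_dir (κ := κ) (c := c) (O := O) hp hq (b := A - C) h'.n1 h'.n2 h'.n3 hc hx
      have d3 := lower_dir (κ := κ) (c := c) (O := O) hp hq (b := B - A) h''.n1 h''.n2 h''.n3 hc hx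
      rw [← hn1, ← hn2, ← hn3] at d1 d2 d3
      change fderiv ℝ (FF g p q κ c O n₁ n₂ n₃) x (C - B) ≤ _ at d1
      change fderiv ℝ (FF g p q κ c O n₂ n₃ n₁) x (A - C) ≤ _ at d2
      change fderiv ℝ (FF g p q κ c O n₃ n₁ n₂) x (B - A) ≤ _ at d3
      have hs := h.norm_sum (fderiv ℝ g x)
      have w2 := WW_rot p q κ O n₁ n₂ n₃ x
      have w3 := (WW_rot p q κ O n₂ n₃ n₁ x).trans w2
      rw [w2] at d2
      rw [w3] at d3
      have hW := WW_pos hp hq κ O n₁ n₂ n₃ x
      have hsum : c ^ 2 * (om p q (κ * lc O n₂ x) + om p q (κ * lc O n₃ x)) /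
            WW p q κ O n₁ n₂ n₃ x +
          c ^ 2 * (om p q (κ * lc O n₃ x) + om p q (κ * lc O n₁ x)) / WW p q κ O n₁ n₂ n₃ x +
          c ^ 2 * (om p q (κ * lc O n₁ x) + om p q (κ * lc O n₂ x)) / WW p q κ O n₁ n₂ n₃ x =
          18 * ρ ^ 2 * κ ^ 2 := by
        rw [← add_div, ← add_div, div_eq_iff hW.ne', hc]
        unfold WW
        ring
      have hsum' := congrArg (fun s => g x ^ 2 * s) hsum
      nlinarith [d1, d2, d3, hs, hsum']
  have i12 : IntegrableOn (fun x => fderiv ℝ (FF g p q κ c O n₁ n₂ n₃) x (C - B) +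
      fderiv ℝ (FF g p q κ c O n₂ n₃ n₁) x (A - C)) (tri A B C) := i1.add i2
  rw [integral_add i12 i3, integral_add i1 i2, T1, T2, T3, integral_const_mul,
    integral_add ig (ig2.const_mul _), integral_const_mul] at hpt
  -- boundary terms
  have b1 := F_edge h (c := c) P hfg hg.continuous
  have b2 := F_edge h' (c := c) P (by rw [ht1]; exact hfg) hg.continuous
  have b3 := F_edge h'' (c := c) P (by rw [ht2]; exact hfg) hg.continuous
  rw [hc1] at b2
  rw [hc2] at b3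
  rw [← hn1, ← hn2, ← hn3] at b1 b2 b3
  have e1 : ∫ x in tri A B C, ‖fderiv ℝ f x‖ ^ 2 = ∫ x in tri A B C, ‖fderiv ℝ g x‖ ^ 2 := by
    apply setIntegral_congr_ae (tri_meas A B C)
    filter_upwards [hae] with x hx hxT
    rw [(hx hxT).1]
  have e2 : ∫ x in tri A B C, f x ^ 2 = ∫ x in tri A B C, g x ^ 2 := by
    apply setIntegral_congr_fun (tri_meas A B C)
    intro x hx
    simp only
    rw [hfg hx]
  have hbd : bdInt (fun x => f x ^ 2) A B C = 2 * √3 * ρ *
      ((∫ t in (0:ℝ)..1, f (AffineMap.lineMap A B t) ^ 2) +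
       (∫ t in (0:ℝ)..1, f (AffineMap.lineMap B C t) ^ 2) +
       (∫ t in (0:ℝ)..1, f (AffineMap.lineMap C A t) ^ 2)) := by
    unfold bdInt segInt
    rw [h.dist_AB, h'.dist_AB, h''.dist_AB]
    ring
  rw [e1, e2, hbd]
  rw [h.J_abs] at hpt
  have h18 : 0 < 18 * ρ ^ 2 := by positivity
  apply le_of_mul_le_mul_left _ h18
  refine le_trans (le_of_eq ?_) hpt
  rw [hc] at b1 b2 b3 ⊢
  linear_combination (-(6 * √3 * ρ ^ 2)) * (b1 + b2 + b3)

end Pool.Agent.Robin
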