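import Mathlib
import Pool.Agent.Robin.LowerFin

set_option autoImplicit false

open MeasureTheory Set

namespace Pool.Agent.Robin

lemma J_ne_of_affineIndependent {A B C : Plane} (h : AffineIndependent ℝ ![A, B, C]) :
    J A B C ≠ 0 := by
  intro hJ
  rw [affineIndependent_iff_not_collinear_set] at h
  apply h
  have hAB : A ≠ B := by
    rintro rfl
    apply h
    simpa using collinear_pair ℝ A C
  rw [collinear_iff_of_mem (p₀ := A) (by simp)]
  refine ⟨B - A, ?_⟩
  have hm : (B 0 - A 0) ^ 2 + (B 1 - A 1) ^ 2 ≠ 0 := by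
    intro h0
    apply hAB
    have h1 : B 0 - A 0 = 0 := by nlinarith [sq_nonneg (B 0 - A 0), sq_nonneg (B 1 - A 1)]
    have h2 : B 1 - A 1 = 0 := by nlinarith [sq_nonneg (B 0 - A 0), sq_nonneg (B 1 - A 1)]
    ext i; fin_cases i
    · simp only [Fin.zero_eta]; linarith
    · simp only [Fin.mk_one]; linarith
  unfold J at hJ
  intro p hp
  simp only [mem_insert_iff, mem_singleton_iff] at hp
  rcases hp with rfl | rfl | rfl
  · exact ⟨0, by simp⟩
  · exact ⟨1, by simp⟩
  · refine ⟨((B 0 - A 0) * (p 0 - A 0) + (B 1 - A 1) * (p 1 - A 1)) /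
      ((B 0 - A 0) ^ 2 + (B 1 - A 1) ^ 2), ?_⟩
    ext i; fin_cases i
    · simp only [Fin.zero_eta, vadd_eq_add, PiLp.add_apply, PiLp.smul_apply, PiLp.sub_apply,
        smul_eq_mul]
      field_simp
      linear_combination (-(B 1 - A 1)) * hJ
    · simp only [Fin.mk_one, vadd_eq_add, PiLp.add_apply, PiLp.smul_apply, PiLp.sub_apply,
        smul_eq_mul]
      field_simp
      linear_combination (B 0 - A 0) * hJ

lemma volume_tri {A B C : Plane} (hJ : J A B C ≠ 0) :
    (volume (tri A B C)).toReal = |J A B C| * (volume Sx).toReal := by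
  have h := tri_setIntegral hJ (fun _ => (1:ℝ))
  simp only [integral_const, smul_eq_mul, mul_one] at h
  rw [measureReal_restrict_apply_univ, measureReal_restrict_apply_univ] at h
  exact h

lemma volume_Sx : 0 < (volume Sx).toReal := by
  rw [ENNReal.toReal_pos_iff]
  constructor
  · have hopen : IsOpen (Ioo (0:ℝ) (1 / 2) ×ˢ Ioo (0:ℝ) (1 / 2)) := isOpen_Ioo.prod isOpen_Ioo
    have hne : (Ioo (0:ℝ) (1 / 2) ×ˢ Ioo (0:ℝ) (1 / 2)).Nonempty :=
      ⟨(1 / 4, 1 / 4), by constructor <;> constructor <;> norm_num⟩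
    refine lt_of_lt_of_le (hopen.measure_pos volume hne) (measure_mono ?_)
    rintro ⟨a, b⟩ ⟨⟨h1, h2⟩, ⟨h3, h4⟩⟩
    simp only at h1 h2 h3 h4
    exact ⟨h1.le, h3.le, by simp only; linarith⟩
  · have hsub : Sx ⊆ Icc (0:ℝ) 1 ×ˢ Icc (0:ℝ) 1 := by
      rintro ⟨a, b⟩ ⟨h1, h2, h3⟩
      simp only at h1 h2 h3
      exact ⟨⟨h1, by simp only; linarith⟩, ⟨h2, by simp only; linarith⟩⟩
    exact lt_of_le_of_lt (measure_mono hsub) (isCompact_Icc.prod isCompact_Icc).measure_lt_top

lemma volume_tri_pos {A B C : Plane} (hJ : J A B C ≠ 0) : 0 < (volume (tri A B C)).toReal := by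
  rw [volume_tri hJ]
  exact mul_pos (abs_pos.2 hJ) volume_Sx

lemma exists_equi {P Q R : Plane} (h1 : dist P Q = dist Q R) (h2 : dist Q R = dist R P)
    (h0 : 0 < dist P Q) : ∃ ρ u v σ : ℝ, Equi P Q R ρ u v σ := by
  have h33 : √3 ^ 2 = 3 := Real.sq_sqrt (by norm_num)
  set m := dist P Q ^ 2 with hm
  have hmpos : 0 < m := by positivity
  have e1 : (Q 0 - P 0) ^ 2 + (Q 1 - P 1) ^ 2 = m := by
    rw [hm, dist_sq]; ring
  have e2 : (R 0 - P 0) ^ 2 + (R 1 - P 1) ^ 2 = m := by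
    rw [hm, h1, h2, dist_sq]
  have e3 : (Q 0 - R 0) ^ 2 + (Q 1 - R 1) ^ 2 = m := by
    rw [hm, h1, dist_sq]
  have e4 : (Q 0 - P 0) * (R 0 - P 0) + (Q 1 - P 1) * (R 1 - P 1) = m / 2 := by
    linear_combination (e1 + e2 - e3) / 2
  have hJ2 : J P Q R ^ 2 = 3 / 4 * m ^ 2 := by
    have : J P Q R ^ 2 = ((Q 0 - P 0) ^ 2 + (Q 1 - P 1) ^ 2) * ((R 0 - P 0) ^ 2 + (R 1 - P 1) ^ 2) -
        ((Q 0 - P 0) * (R 0 - P 0) + (Q 1 - P 1) * (R 1 - P 1)) ^ 2 := by
      unfold J; ring
    rw [this, e1, e2, e4]; ring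
  refine ⟨dist P Q / (2 * √3), Q 0 - P 0, Q 1 - P 1, J P Q R / m, by positivity, ?_, ?_,
    by ring, by ring, ?_, ?_⟩
  · rw [e1, div_pow, mul_pow, h33, ← hm]; ring
  · rw [div_pow, hJ2]; field_simp
  · have : m * (R 0 - P 0) = m / 2 * (Q 0 - P 0) - J P Q R * (Q 1 - P 1) := by
      unfold J
      linear_combination (-(R 0 - P 0)) * e1 + (Q 0 - P 0) * e4
    field_simp
    linear_combination 2 * this
  · have : m * (R 1 - P 1) = m / 2 * (Q 1 - P 1) + J P Q R * (Q 0 - P 0) := by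
      unfold J
      linear_combination (-(R 1 - P 1)) * e1 + (Q 1 - P 1) * e4
    field_simp
    linear_combination 2 * this

theorem main {α : ℝ} (hα : α < 0) {A B C P Q R : Plane}
    (hT : AffineIndependent ℝ ![A, B, C]) (h1 : dist P Q = dist Q R) (h2 : dist Q R = dist R P)
    (hvol : volume (tri P Q R) = volume (tri A B C)) : robin A B C α ≤ robin P Q R α := by
  have hJ := J_ne_of_affineIndependent hT
  have hpos := volume_tri_pos hJ
  have hd : 0 < dist P Q := by
    rw [dist_pos]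
    rintro rfl
    rw [dist_self] at h1
    have hR : P = R := by rw [← dist_eq_zero, ← h1]
    subst hR
    have : volume (tri P P P) = 0 := by
      simp [tri]
    rw [← hvol, this] at hpos
    simp at hpos
  obtain ⟨ρ, u, v, σ, hE⟩ := exists_equi h1 h2 hd
  obtain ⟨O, n₁, e₁, n₂, e₂, n₃, e₃, x, y, z, r, hI⟩ := exists_inc hJ
  have hρ := hE.hρ
  have hr := hI.c1.hr
  -- comparison of inradii
  have hJJ : |J A B C| = |J P Q R| := by
    have k1 := volume_tri hJ
    have k2 := volume_tri hE.J_ne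
    rw [hvol, k1] at k2
    exact mul_right_cancel₀ volume_Sx.ne' k2
  have hrρ : r ≤ ρ := by
    rw [hI.hJ, hE.J_abs] at hJJ
    have hs := semi_ge hI.c2.hz hI.c1.hy hI.c1.hz hr hI.hrs
    have h3 : (0:ℝ) < √3 := Real.sqrt_pos.2 (by norm_num)
    have : 6 * √3 * r ^ 2 ≤ 6 * √3 * ρ ^ 2 := by
      rw [← hJJ]
      nlinarith
    have h5 : r ^ 2 ≤ ρ ^ 2 := le_of_mul_le_mul_left this (by positivity)
    exact (pow_le_pow_iff_left₀ hr.le hρ.le (by norm_num)).1 h5
  obtain ⟨κ, p, q, hκ, hpar⟩ := exists_par (a := -α) (r := ρ) (by linarith) hρ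
  have hκτ : κ * (-α / κ) = -α := by field_simp
  -- lower bound for the equilateral triangle
  have hlow : ((-κ ^ 2 : ℝ) : EReal) ≤ robin P Q R α := by
    unfold robin
    refine le_iInf₂ fun f hf => ?_
    obtain ⟨⟨K, hK⟩, hf0⟩ := hf
    have := lower_bound hE hpar hK
    rw [hκτ] at this
    rw [EReal.coe_le_coe_iff]
    unfold rayleigh
    rw [le_div_iff₀ hf0]
    linarith
  -- upper bound for the other triangle
  have hup : robin A B C α ≤ ((-κ ^ 2 : ℝ) : EReal) := by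
    obtain ⟨f, hfl, hfpos, hf⟩ := upper_bound hI hpar hκ (mul_le_mul_of_nonneg_left hrρ hκ.le)
    obtain ⟨K, hK⟩ := tri_lip (A := A) (B := B) (C := C) hfl
    have hf0 : 0 < ∫ x in tri A B C, f x ^ 2 := by
      rw [setIntegral_pos_iff_support_of_nonneg_ae
        (Filter.Eventually.of_forall fun x => by positivity) (lip_cont_int hK)]
      have : Function.support (fun x => f x ^ 2) = univ := by
        ext x
        simp [(hfpos x).ne']
      rw [this, univ_inter]
      exact (ENNReal.toReal_pos_iff.1 hpos).1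
    rw [hκτ] at hf
    unfold robin
    refine (iInf₂_le f ⟨⟨K, hK⟩, hf0⟩).trans ?_
    rw [EReal.coe_le_coe_iff]
    unfold rayleigh
    rw [div_le_iff₀ hf0]
    linarith
  exact hup.trans hlow

end Pool.Agent.Robin
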